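import Pool.Agent.Lib.MP_ce2dd3_lc.Opt

set_option autoImplicit false

/-! The two-sided greedy algorithm (GreedyFuture). -/

namespace Pool.Agent.Lib.GR7

open Pool.Agent.Lib.MP_ce2dd3_lc BT

/-- The keys in preorder. -/
def preorder : BT → List ℕ
  | nil => []
  | node l k r => k :: (preorder l ++ preorder r)

/-- The least number of single rotations that turn `U` into `V`. -/
noncomputable def rdist (U V : BT) : ℕ := sInf {k | Rots k U V}

/-- The heap key of the path node `v`: the position in the future requests `σ` of the first request
`z` with no other node of the path `P` between `z` (included) and `v`, that is, to `v` or to a node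
of one of the two subtrees off the path next to `v` in symmetric order; `σ.length` is `+∞`. -/
def key2 (σ P : List ℕ) (v : ℕ) : ℕ :=
  σ.findIdx fun z => ∀ w ∈ P, w ≠ v → ¬ (z ≤ w ∧ w < v) ∧ ¬ (v < w ∧ w ≤ z)

/-- One step in the form of Lucas: `x` goes to the root, both sides are rebuilt as heaps. -/
def StepL (σ : List ℕ) (x : ℕ) (T T' : BT) : Prop :=
  ∃ l r l' r', toRoot x T = node l x r ∧ T' = node l' x r' ∧
    frontier (path x T) l' = frontier (path x T) l ∧
    frontier (path x T) r' = frontier (path x T) r ∧
    Heap (path x T) (key2 σ (path x T)) l' ∧ Heap (path x T) (key2 σ (path x T)) r'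

/-- One step in the form of Munro: the whole access path is rebuilt as a heap. -/
def StepM (σ : List ℕ) (x : ℕ) (T T' : BT) : Prop :=
  frontier (path x T) T' = frontier (path x T) T ∧ Heap (path x T) (key2 σ (path x T)) T'

/-- `Greedy2 b T σ g`: a run on `σ` from `T` whose accesses and rotations cost `g` in total, in the
form of Lucas (`b = true`) or of Munro (`b = false`). -/
inductive Greedy2 : Bool → BT → List ℕ → ℕ → Prop
  | done (b T) : Greedy2 b T [] 0
  | lucas {T T' x σ g} : StepL σ x T T' → Greedy2 true T' σ g →
      Greedy2 true T (x :: σ) (g + (depth x T + rdist (toRoot x T) T' + 1))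
  | munro {T T' x σ g} : StepM σ x T T' → Greedy2 false T' σ g →
      Greedy2 false T (x :: σ) (g + (1 + depth x T + rdist T T'))

end Pool.Agent.Lib.GR7
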