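import Pool.Agent.Lib.GR7.Link
import Pool.Agent.Lib.TVA.First
import Pool.Agent.Lib.TV.Blue

set_option autoImplicit false
set_option linter.unusedVariables false

/-! The F-links of left type in the greedy game. -/

namespace Pool.Agent.Lib.GR7

open Pool.Agent.Lib.MP_3ecc11_lc Pool.Agent.Lib.TV19 Finset

namespace Game

variable (G : Game) (d : ℤ → ℤ → ℕ)

def PL (x : ℤ × ℤ) : Prop := G.Left x ∧ d x.1 (G.w x) < d (G.w x) (G.e x)
def PR (x : ℤ × ℤ) : Prop := G.Right x ∧ d x.1 (G.w x) < d (G.w x) (G.e' x)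
def FL (x : ℤ × ℤ) : Prop := G.Left x ∧ d (G.w x) (G.e x) < d x.1 (G.w x)
def FR (x : ℤ × ℤ) : Prop := G.Right x ∧ d (G.w x) (G.e' x) < d x.1 (G.w x)
def NL (x : ℤ × ℤ) : Prop := G.Key x.1 ∧ G.Tch x.1 x.2 ∧ ¬ G.IsLink x

def Same (x y : ℤ × ℤ) : Prop :=
  (x.1 < x.2 ↔ y.1 < y.2) ∧ d (G.w x) (G.e x) = d (G.w y) (G.e y) ∧
    d (G.e x) (G.e y) < d (G.w x) (G.e x) ∧ d x.1 (G.e x) = d y.1 (G.e y)

def First (x : ℤ × ℤ) : Prop :=
  G.FL d x ∧ ¬ ∃ y, G.FL d y ∧ G.Same d x y ∧ G.An y.1 x.1 ∧ y.1 ≠ x.1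

open Classical in
/-- the pairs (time, node) with a property -/
noncomputable def S (p : ℤ × ℤ → Prop) : Finset (ℤ × ℤ) := (Ioo 0 G.N ×ˢ Ioo 0 G.N).filter p

variable {G d} {z : ℤ → ℤ} {x y : ℤ × ℤ}

theorem mem_S {p : ℤ × ℤ → Prop} : x ∈ G.S p ↔ (G.Key x.1 ∧ G.Key x.2) ∧ p x := by
  classical
  unfold S Key
  rw [mem_filter, mem_product, mem_Ioo, mem_Ioo]

theorem slf (H : TV.Hier 0 G.N G.a G.b d z) {u : ℤ} (ku : G.Key u) : d u u = 0 :=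
  (H.d0 u u ku.1 ku.2 ku.1 ku.2).2 rfl

theorem um (H : TV.Hier 0 G.N G.a G.b d z) : TVA.UM G.N d := by
  refine ⟨fun u u1 u2 => slf H ⟨u1, u2⟩, H.sym, H.d1, H.d2,
    fun u v u1 u2 v1 v2 _ => H.d5 u v u1 u2 v1 v2, fun u k u1 u2 => ?_⟩
  obtain ⟨l1, l2, l3, l4, -, -, -, h⟩ := H.d7 u k u1 u2
  refine ⟨l1, l2, l3, l4, fun v v1 v2 => ?_⟩
  rw [← h v, TV.mem_ball]
  exact ⟨fun k => ⟨v1, v2, k⟩, fun k => k.2.2⟩

theorem sy (H : TV.Hier 0 G.N G.a G.b d z) {u v : ℤ} (ku : G.Key u) (kv : G.Key v) :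
    d u v = d v u := H.sym u v ku.1 ku.2 kv.1 kv.2

theorem ul (H : TV.Hier 0 G.N G.a G.b d z) {u v w : ℤ} (ku : G.Key u) (kv : G.Key v)
    (kw : G.Key w) : d u w ≤ max (d u v) (d v w) := H.d1 u v w ku.1 ku.2 kv.1 kv.2 kw.1 kw.2

theorem d3 (H : TV.Hier 0 G.N G.a G.b d z) {u v w : ℤ} (ku : G.Key u) (h1 : G.An u v)
    (h2 : G.An v w) : d u v ≤ d u w ∧ d v w ≤ d u w := H.d3 u v w ku.1 ku.2 h1 h2

theorem btop (H : TV.Hier 0 G.N G.a G.b d z) {u : ℤ} (ku : G.Key u) {k : ℕ} (k0 : 0 < k) :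
    ∃ h, G.Key h ∧ (∀ v, G.Key v → d u v < k → G.An h v) ∧
      ∀ t v, G.Key t → G.An t v → d u v < k → k ≤ d u t → G.An t h ∧ ¬ G.An h t := by
  obtain ⟨h, h1, h2⟩ := H.d6 u (k - 1) ku.1 ku.2
  rw [TV.mem_ball, ← and_assoc] at h1
  have h3 : ∀ v, G.Key v → d u v < k → G.An h v := fun v kv hv =>
    h2 v (TV.mem_ball.2 ⟨kv.1, kv.2, by omega⟩)
  refine ⟨h, h1.1, h3, fun t v kt a l1 l2 => ?_⟩
  have kv := kt.of a
  have n : ¬ G.An h t := fun o => by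
    have k1 := d3 H h1.1 o a
    have k2 := ul H h1.1 ku kv
    have k3 := sy H h1.1 ku
    have k4 := ul H ku h1.1 kt
    omega
  exact ⟨(kt.total h1.1 a (h3 v kv l1)).resolve_right n, n⟩

theorem Left.pos (H : TV.Hier 0 G.N G.a G.b d z) (hx : G.Left x) : 0 < d (G.w x) (G.e x) := by
  have a := hx.1.anc
  have g := hx.1.geo
  have l := hx.2
  have := (H.d0 _ _ a.2.2.2.2.2.1.1 a.2.2.2.2.2.1.2 a.2.2.2.2.2.2.1.1 a.2.2.2.2.2.2.1.2).1
  omega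

theorem FL.al (H : TV.Hier 0 G.N G.a G.b d z) (hx : G.FL d x) :
    d x.1 (G.e x) = d x.1 (G.w x) := by
  have a := hx.1.1.anc
  have k1 := d3 H hx.1.1.1 a.1 a.2.2.1
  have k2 := ul H hx.1.1.1 a.2.2.2.2.2.1 a.2.2.2.2.2.2.1
  have := hx.2
  omega

theorem same_time (H : TV.Hier 0 G.N G.a G.b d z) (hx : G.Left x) (hy : G.Left y) (t : x.1 = y.1)
    (h1 : d (G.w x) (G.e x) = d (G.w y) (G.e y)) (h2 : d (G.e x) (G.e y) < d (G.w x) (G.e x)) :
    x = y := by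
  by_contra ne
  have ax := hx.1.anc
  have ay := hy.1.anc
  have gx := hx.1.geo
  have gy := hy.1.geo
  have lx := hx.2
  have ly := hy.2
  have ex := ax.2.2.2.2.2.2.1
  have ey := ay.2.2.2.2.2.2.1
  have wx := ax.2.2.2.2.2.1
  have wy := ay.2.2.2.2.2.1
  obtain ⟨h, kh, b1, b2⟩ := btop H ex (hx.pos H)
  have s0 := slf H ex
  have k1 := b1 _ ex (by omega)
  have k2 := b1 _ ey h2
  have k3 := (b2 _ _ wx ax.2.2.1 (by omega) (by rw [sy H ex wx])).2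
  have k4 := (b2 _ _ wy ay.2.2.1 h2 (by
    have := ul H ey ex wy
    have := sy H ey ex
    have := sy H ey wy
    omega)).2
  have := s2 hx hy t ne
  unfold An Anc at k1 k2 k3 k4
  omega

theorem level_inj (H : TV.Hier 0 G.N G.a G.b d z) (hx : G.FL d x) (hy : G.FL d y)
    (he : G.e x = G.e y) (h1 : d (G.w x) (G.e x) = d (G.w y) (G.e y)) : x = y := by
  have key : ∀ x y : ℤ × ℤ, G.FL d x → G.FL d y → G.e x = G.e y →
      d (G.w x) (G.e x) = d (G.w y) (G.e y) → G.An x.1 y.1 → x.1 = y.1 := by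
    intro x y hx hy he h1 o
    by_contra ne
    have ax := hx.1.1.anc
    have ay := hy.1.1.anc
    have gx := hx.1.1.geo
    have lx := hx.1.2
    have n : ¬ G.An (G.w x) y.1 := fun k => by
      have k1 := d3 H ax.2.2.2.2.2.1 k ay.2.2.2.2.2.2.2.2.1
      have k2 := hy.al H
      have k3 := hy.2
      rw [he] at h1
      omega
    have k1 := (ax.2.2.2.2.2.1.total hy.1.1.1 ax.2.2.1 (he ▸ ay.2.2.2.2.2.2.2.2.1)).resolve_left n
    rcases (s3 hx.1 hy.1 o (Ne.symm ne) k1 fun e => n (e ▸ hy.1.1.1.refl)).1 with k | k | k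
    · omega
    · omega
    · have := ax.2.2.2.2.2.1.antisymm ax.2.2.1 (he ▸ k)
      omega
  have ax := hx.1.1.anc
  have ay := hy.1.1.anc
  have t : x.1 = y.1 := by
    rcases hx.1.1.1.total hy.1.1.1 ax.2.2.2.2.2.2.2.2.1 (he ▸ ay.2.2.2.2.2.2.2.2.1) with o | o
    · exact key x y hx hy he h1 o
    · exact (key y x hy hx he.symm h1.symm o).symm
  refine same_time H hx.1 hy.1 t h1 ?_
  rw [← he, slf H ax.2.2.2.2.2.2.1]
  exact hx.1.pos H

/-- an ancestor of a near point which is far away is an ancestor -/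
theorem anc_near (H : TV.Hier 0 G.N G.a G.b d z) {t u v : ℤ} (kt : G.Key t) (kv : G.Key v)
    (a : G.An t u) (h : d u v < d t u) : G.An t v ∧ d t v = d t u := by
  have ku := kt.of a
  obtain ⟨m, km, b1, b2⟩ := btop H ku (k := d t u) (by omega)
  have s0 := slf H ku
  have k1 := ul H kt ku kv
  have k2 := ul H kt kv ku
  have k3 := sy H ku kv
  exact ⟨kt.trans (b2 t u kt a (by omega) (by rw [sy H ku kt])).1 (b1 v kv h), by omega⟩

theorem fam (H : TV.Hier 0 G.N G.a G.b d z) (c : Prop) :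
    TVA.Fam G.N d (G.S fun x => G.First d x ∧ (x.1 < x.2 ↔ c)) G.e G.e
      (fun x => d (G.w x) (G.e x)) (fun x => d x.1 (G.e x)) G.A := by
  refine ⟨fun x hx => ?_, fun x hx => ?_, fun x hx => ?_, fun x hx => ?_,
    fun x hx y hy h1 h2 => ?_, fun x hx y hy h1 h2 h3 => ?_,
    fun x hx u hu v hv h1 h2 h3 h4 h5 h6 h7 h8 => ?_⟩
  · exact (mem_S.1 hx).2.1.1.1.1.anc.2.2.2.2.2.2.1
  · have f := (mem_S.1 hx).2.1.1
    exact ⟨f.1.pos H, by rw [f.al H]; exact f.2⟩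
  · have a := (mem_S.1 hx).2.1.1.1.1.anc
    exact ⟨G.w x, a.2.2.2.2.2.1.1, a.2.2.2.2.2.1.2, sy H a.2.2.2.2.2.2.1 a.2.2.2.2.2.1⟩
  · have l := (mem_S.1 hx).2.1.1.1.1
    exact ⟨x.1, l.1.1, l.1.2, sy H l.anc.2.2.2.2.2.2.1 l.1⟩
  · exact level_inj H (mem_S.1 hx).2.1.1 (mem_S.1 hy).2.1.1 h1 h2
  · obtain ⟨⟨fx, nx⟩, cx⟩ := (mem_S.1 hx).2
    obtain ⟨⟨fy, ny⟩, cy⟩ := (mem_S.1 hy).2
    have ax := fx.1.1.anc
    have ay := fy.1.1.anc
    have s := sy H ax.2.2.2.2.2.2.1 ay.2.2.2.2.2.2.1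
    have k1 := fx.al H
    have k2 := fx.2
    have k3 := (anc_near H fx.1.1.1 ay.2.2.2.2.2.2.1 ax.2.2.2.2.2.2.2.2.1 (by omega)).1
    refine same_time H fx.1 fy.1 ?_ h1 h3
    by_contra ne
    rcases fx.1.1.1.total fy.1.1.1 k3 ay.2.2.2.2.2.2.2.2.1 with o | o
    · exact ny ⟨x, fx, ⟨cy.trans cx.symm, h1.symm, by omega, h2.symm⟩, o, ne⟩
    · exact nx ⟨y, fy, ⟨cx.trans cy.symm, h1, h3, h2⟩, o, Ne.symm ne⟩
  · have lx := (mem_S.1 hx).2.1.1.1.1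
    have lu := (mem_S.1 hu).2.1.1.1.1
    have lv := (mem_S.1 hv).2.1.1.1.1
    have ax := lx.anc
    have au := lu.anc
    have av := lv.anc
    have ex := ax.2.2.2.2.2.2.1
    have xe := ax.2.2.2.2.2.2.2.2.1
    have k1 := anc_near H lu.1 ex au.2.2.2.2.2.2.2.2.1 (by omega)
    have k2 := anc_near H lv.1 ex av.2.2.2.2.2.2.2.2.1 (by omega)
    have n1 : ¬ G.An x.1 u.1 := fun o => by
      have := d3 H lx.1 o k1.1
      omega
    have n2 : ¬ G.An x.1 v.1 := fun o => by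
      have := d3 H lx.1 o k2.1
      omega
    obtain ⟨m, km, b1, b2⟩ := btop H ex (k := d x.1 (G.e x)) (by omega)
    have s0 := slf H ex
    have m1 := b2 x.1 _ lx.1 xe (by omega) (by rw [sy H ex lx.1])
    have m2 := b1 _ au.2.2.2.2.2.2.1 (by rw [sy H ex au.2.2.2.2.2.2.1]; exact h7)
    have m3 := b1 _ av.2.2.2.2.2.2.1 (by rw [sy H ex av.2.2.2.2.2.2.1]; exact h8)
    obtain ⟨τ, t1, t2⟩ := s4 lx lu lv ((lu.1.total lx.1 k1.1 xe).resolve_right n1)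
      (fun e => n1 (e ▸ lx.1.refl)) ((lv.1.total lx.1 k2.1 xe).resolve_right n2)
      (fun e => n2 (e ▸ lx.1.refl)) (lx.1.trans m1.1 m2) (lx.1.trans m1.1 m3)
      (by have := m1.2; unfold An Anc at *; omega) h5.le h6
    rcases t1 with ⟨t3, t4⟩ | ⟨t3, t4⟩
    · have kτ := lu.1.of t3
      have c1 := d3 H lu.1 t3 (kτ.trans t4 k2.1)
      have c2 := d3 H kτ t4 k2.1
      exact ⟨τ, kτ.1, kτ.2, by omega, t2⟩
    · have kτ := lv.1.of t3
      have c1 := d3 H lv.1 t3 (kτ.trans t4 k1.1)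
      have c2 := d3 H kτ t4 k1.1
      exact ⟨τ, kτ.1, kτ.2, by omega, t2⟩

/-- the node of a link that is not a first member was touched since the earlier member -/
theorem touched (H : TV.Hier 0 G.N G.a G.b d z) (hx : G.FL d x) (hy : G.FL d y)
    (s : G.Same d x y) (o : G.An y.1 x.1) (ne : y.1 ≠ x.1)
    (p : G.P x.1 x.2 = G.P y.1 x.2)
    (no : ∀ τ, G.An y.1 τ → G.An τ x.1 → τ ≠ x.1 → ¬ G.Tch τ x.2) : False := by
  classical
  obtain ⟨s1, s2, s3, s4⟩ := s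
  have lx := hx.1.1
  have ly := hy.1.1
  have ax := lx.anc
  have ay := ly.anc
  have bx := lx.basic
  have b' := ly.basic
  have gx := lx.geo
  have gy := ly.geo
  have cx := hx.1.2
  have cy := hy.1.2
  have ex := ax.2.2.2.2.2.2.1
  have ey := ay.2.2.2.2.2.2.1
  have wx := ax.2.2.2.2.2.1
  have wy := ay.2.2.2.2.2.1
  obtain ⟨h, kh, b1, b2⟩ := btop H ex (hx.1.pos H)
  have s0 := slf H ex
  have k1 := b1 _ ex (by omega)
  have k2 := b1 _ ey s3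
  have u1 := ul H ey ex wy
  have u2 := sy H ey ex
  have u3 := sy H ey wy
  have u4 := ul H wy ey ex
  have k3 := (b2 _ _ wx ax.2.2.1 (by omega) (by rw [sy H ex wx])).2
  have k4 := b2 _ _ wy ay.2.2.1 s3 (by omega)
  have k5 := kh.sub k1
  have k6 := kh.sub k2
  have al := hx.al H
  have f2 := hx.2
  have we : G.An (G.w y) (G.e x) := wy.trans k4.1 k1
  have n : ¬ G.An (G.w y) x.1 := fun k => by
    have := d3 H wy k ax.2.2.2.2.2.2.2.2.1
    omega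
  have xw := (wy.total lx.1 we ax.2.2.2.2.2.2.2.2.1).resolve_left n
  have nn : ∀ v, G.lo y < v → v < G.hi y → ¬ G.Tch x.1 v := fun v v1 v2 =>
    ly.noaff o ne.symm xw (fun e => n (e ▸ lx.1.refl)) v1 v2
  have r1 : ¬ (G.lo y < x.2 ∧ x.2 < G.hi y) := fun k => nn _ k.1 k.2 lx.2.1
  have r2 : ¬ (G.lo y < G.lo x ∧ G.lo x < G.hi y) := fun k => nn _ k.1 k.2 lx.tlo
  have k7 := k4.2
  have r3 : G.hi y ≤ x.2 ∧ G.lo x ≤ G.lo y := by
    unfold An Anc at k1 k2 k3 k7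
    omega
  have ym : G.An y.1 x.2 := ly.1.trans o lx.2.1.1
  have n0 := no y.1 ly.1.refl o ne
  have tx := lx.2.1
  have ty := ly.2.1
  by_cases c : x.1 < x.2
  · have c' := s1.1 c
    have q := G.pl y.1 x.2 ly.1.1 ly.1.2 ym
    have l := G.l1 y.1 x.2 y.2 ly.1.1 ly.1.2 ym ty.1 (by have := tx.2.2.1; omega) (by omega)
    exact n0 ⟨ym, by omega, by have := ty.2.2.1; omega, by omega⟩
  · have c' : ¬ y.1 < y.2 := fun k => c (s1.2 k)
    have hne : G.hi y ≠ x.2 := fun e => n0 (e ▸ ly.thi)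
    obtain ⟨v, hv, vm⟩ := exists_max_image ((Ico (G.hi y) x.2).filter fun v =>
      ∃ τ, G.An y.1 τ ∧ G.An τ x.1 ∧ τ ≠ x.1 ∧ G.Tch τ v) id
      ⟨G.hi y, mem_filter.2 ⟨mem_Ico.2 ⟨le_rfl, by omega⟩, y.1, ly.1.refl, o, ne, ly.thi⟩⟩
    obtain ⟨v1, τ, v2, v3, v4, v5⟩ := mem_filter.1 hv
    rw [mem_Ico] at v1
    have kτ := ly.1.of v2
    have xv : G.An x.1 v := by unfold An Anc; omega
    have nv := lx.no (v := v) (by omega) (by omega) (by omega)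
    rcases qbig kτ v5 v1.2 x.1 v3 xv tx.1 (fun σ w a1 a2 a3 w1 w2 t => by
      have := vm w (mem_filter.2 ⟨mem_Ico.2 ⟨by omega, w2⟩, σ, ly.1.trans v2 a1, a2, a3, t⟩)
      simp only [id] at this
      omega) with m | m | ⟨σ, m1, m2, m3, m4⟩
    · exact v4 m.symm
    · have l := G.l2 x.1 v x.2 lx.1.1 lx.1.2 xv tx.1 v1.2 m
      have q := G.pl x.1 v lx.1.1 lx.1.2 xv
      have := tx.2.2.2
      exact nv ⟨xv, by omega, by omega, by omega⟩
    · by_cases e : σ = x.1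
      · exact nv (e ▸ m3)
      · exact no σ (ly.1.trans v2 m1) m2 e m4

theorem nonfirst (H : TV.Hier 0 G.N G.a G.b d z) (hx : G.FL d x) (n : ¬ G.First d x) :
    ∃ τ, G.An τ x.1 ∧ τ ≠ x.1 ∧ G.Key τ ∧
      (∀ σ, G.An τ σ → G.An σ x.1 → σ ≠ τ → σ ≠ x.1 → ¬ G.Tch σ x.2) ∧
      (G.NL (τ, x.2) ∨ G.PL d (τ, x.2) ∨ G.PR d (τ, x.2)) := by
  obtain ⟨y, hy, s, o, ne⟩ : ∃ y, G.FL d y ∧ G.Same d x y ∧ G.An y.1 x.1 ∧ y.1 ≠ x.1 := by
    by_contra k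
    exact n ⟨hx, k⟩
  have lx := hx.1.1
  have ly := hy.1.1
  rcases hist ly.1 x.2 x.1 o lx.2.1.1 with ⟨m1, -, m3⟩ | ⟨τ, m1, m2, m3, m4, m5, m6, m7⟩
  · exact (touched H hx hy s o ne m1 m3).elim
  have kτ := ly.1.of m1
  refine ⟨τ, m2, m3, kτ, m7, ?_⟩
  by_cases l : G.IsLink (τ, x.2)
  swap
  · exact Or.inl ⟨kτ, m4, l⟩
  right
  have w := l.next m2 m3 lx.2.1 m5 m6 m7
  obtain ⟨s1, s2, s3, s4⟩ := s
  have ax := lx.anc
  have ay := ly.anc
  have bx := lx.basic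
  have gx := lx.geo
  have g := l.geo
  have ex := ax.2.2.2.2.2.2.1
  have ey := ay.2.2.2.2.2.2.1
  have al := hx.al H
  have f2 := hx.2
  have k1 := anc_near H ly.1 ex ay.2.2.2.2.2.2.2.2.1 (by rw [sy H ey ex]; omega)
  have k2 := H.d2 (G.e x) y.1 x.1 ex.1 ex.2 ly.1.1 ly.1.2 lx.1.1 lx.1.2
    (by rw [sy H ex ly.1, sy H ex lx.1]; omega) (by rw [sy H ex ly.1]; omega)
  rw [sy H ex ly.1] at k2
  have k3 := d3 H ly.1 m1 m2
  have tx := lx.2.1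
  by_cases c : x.1 < x.2
  · left
    have th := lx.thi
    have l2 := G.l2 x.1 x.2 (G.hi x) lx.1.1 lx.1.2 tx.1 th.1 bx.2.1
    have q : G.hi (τ, x.2) ≤ G.hi x := by
      have := th.2.2.1
      unfold hi at *
      simp only at *
      omega
    have k4 := d3 H lx.1 ax.2.2.2.2.2.2.2.2.1 (w := G.e (τ, x.2))
      (by simp only at g; unfold An Anc; omega)
    refine ⟨⟨l, by rw [w]; exact c⟩, ?_⟩
    rw [w]
    simp only
    omega
  · right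
    have tl := lx.tlo
    have l1 := G.l1 x.1 x.2 (G.lo x) lx.1.1 lx.1.2 tx.1 tl.1
    have q : G.lo x ≤ G.lo (τ, x.2) := by
      have := tl.2.2.2
      have := tx.2.1
      unfold lo at *
      simp only at *
      omega
    have k4 := d3 H lx.1 ax.1 (w := G.e' (τ, x.2)) (by simp only at g; unfold An Anc; omega)
    refine ⟨⟨l, by rw [w]; have := tx.2.1; simp only; omega⟩, ?_⟩
    rw [w]
    simp only
    omega

theorem card_nonfirst (H : TV.Hier 0 G.N G.a G.b d z) :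
    (G.S fun x => G.FL d x ∧ ¬ G.First d x).card ≤
      (G.S G.NL).card + (G.S (G.PL d)).card + (G.S (G.PR d)).card := by
  classical
  have h : ∀ x : ℤ × ℤ, ∃ τ, G.FL d x → ¬ G.First d x → G.An τ x.1 ∧ τ ≠ x.1 ∧ G.Key τ ∧
      (∀ σ, G.An τ σ → G.An σ x.1 → σ ≠ τ → σ ≠ x.1 → ¬ G.Tch σ x.2) ∧
      (G.NL (τ, x.2) ∨ G.PL d (τ, x.2) ∨ G.PR d (τ, x.2)) := by
    intro x
    by_cases c : G.FL d x ∧ ¬ G.First d x
    · obtain ⟨τ, h⟩ := nonfirst H c.1 c.2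
      exact ⟨τ, fun _ _ => h⟩
    · exact ⟨0, fun a b => absurd ⟨a, b⟩ c⟩
  choose f hf using h
  have h1 := card_le_card_of_injOn (s := G.S fun x => G.FL d x ∧ ¬ G.First d x)
    (t := G.S G.NL ∪ G.S (G.PL d) ∪ G.S (G.PR d)) (fun x => (f x, x.2)) (by
      intro x hx
      obtain ⟨k, c1, c2⟩ := mem_S.1 (mem_coe.1 hx)
      obtain ⟨-, -, a3, -, a5⟩ := hf x c1 c2
      simp only [coe_union, Set.mem_union, mem_coe, mem_S]
      tauto) (by
      intro x hx y hy e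
      obtain ⟨k, c1, c2⟩ := mem_S.1 (mem_coe.1 hx)
      obtain ⟨k', c1', c2'⟩ := mem_S.1 (mem_coe.1 hy)
      obtain ⟨a1, a2, a3, a4, -⟩ := hf x c1 c2
      obtain ⟨b1, b2, b3, b4, -⟩ := hf y c1' c2'
      obtain ⟨e1, e2⟩ := Prod.mk.inj e
      refine Prod.ext ?_ e2
      by_contra ne
      have tx := c1.1.1.2.1
      have ty := c1'.1.1.2.1
      rcases k.1.total k'.1 tx.1 (e2 ▸ ty.1) with o | o
      · exact b4 x.1 (e1 ▸ a1) o (e1 ▸ a2.symm) ne (e2 ▸ tx)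
      · exact a4 y.1 (e1 ▸ b1) o (e1 ▸ b2.symm) (Ne.symm ne) (e2 ▸ ty))
  have h2 := card_union_le (G.S G.NL ∪ G.S (G.PL d)) (G.S (G.PR d))
  have h3 := card_union_le (G.S G.NL) (G.S (G.PL d))
  omega

theorem card_FL (H : TV.Hier 0 G.N G.a G.b d z) (R : ℕ) :
    R * (G.S (G.FL d)).card ≤ 2 * ((1280 * R ^ 2 + 102400 * R) * G.N.toNat) +
      80 * ∑ τ ∈ Ioo 0 G.N, (G.A τ).card +
      R * ((G.S G.NL).card + (G.S (G.PL d)).card + (G.S (G.PR d)).card) := by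
  classical
  have h1 := TVA.first_bound R (um H) (fam H True)
  have h2 := TVA.first_bound R (um H) (fam H False)
  have h3 := card_nonfirst H
  have hs : G.S (G.FL d) ⊆ (G.S fun x => G.First d x ∧ (x.1 < x.2 ↔ True)) ∪
      (G.S fun x => G.First d x ∧ (x.1 < x.2 ↔ False)) ∪
      G.S fun x => G.FL d x ∧ ¬ G.First d x := by
    intro x hx
    simp only [mem_union, mem_S] at hx ⊢
    tauto
  have h4 := le_trans (card_le_card hs) (le_trans (card_union_le _ _)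
    (Nat.add_le_add_right (card_union_le _ _) _))
  have h5 := Nat.mul_le_mul_left R (le_trans h4 (Nat.add_le_add_left h3 _))
  rw [mul_add, mul_add] at h5
  omega

end Game

end Pool.Agent.Lib.GR7
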