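import Pool.Agent.Lib.TV19.Tr

set_option autoImplicit false
set_option linter.unusedVariables false

/-! The split game of the greedy algorithm: states, history, freezing, the two-sided lemma. -/

namespace Pool.Agent.Lib.GR7

open Pool.Agent.Lib.MP_3ecc11_lc Pool.Agent.Lib.TV19

/-- the game: time tree, states before and after each access, tops of intervals -/
structure Game where
  N : ℤ
  a : ℤ → ℤ
  b : ℤ → ℤ
  P : ℤ → ℤ → ℤ
  Q : ℤ → ℤ → ℤ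
  P' : ℤ → ℤ → ℤ
  Q' : ℤ → ℤ → ℤ
  top : ℤ → ℤ → ℤ
  T : Lam 0 N a b
  pl : ∀ t v, 0 < t → t < N → Anc a b t v → P t v < v ∧ v < Q t v
  l1 : ∀ t v w, 0 < t → t < N → Anc a b t v → Anc a b t w → P t v < w → w < v →
    P t v ≤ P t w ∧ Q t w ≤ v
  l2 : ∀ t v w, 0 < t → t < N → Anc a b t v → Anc a b t w → v < w → w < Q t v →
    v ≤ P t w ∧ Q t w ≤ Q t v
  un : ∀ t v, 0 < t → t < N → Anc a b t v → v ≠ t → ¬ (P t v < t ∧ t < Q t v) →
    P' t v = P t v ∧ Q' t v = Q t v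
  p1 : ∀ t v, 0 < t → t < N → Anc a b t v → v ≠ t → P t v < t → t < Q t v →
    P' t v < v ∧ (a t < P' t v → (P' t v < t ↔ v < t) → P' t v ≠ t →
      P t (P' t v) < t ∧ t < Q t (P' t v))
  p2 : ∀ t v w, 0 < t → t < N → Anc a b t v → Anc a b t w → v ≠ t → w ≠ t → P t v < t →
    t < Q t v → P t w < t → t < Q t w → w < v → (w < t ↔ v < t) → w ≤ P' t v
  q1 : ∀ t v, 0 < t → t < N → Anc a b t v → v ≠ t → P t v < t → t < Q t v →
    v < Q' t v ∧ (Q' t v < b t → (Q' t v < t ↔ v < t) → Q' t v ≠ t →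
      P t (Q' t v) < t ∧ t < Q t (Q' t v))
  q2 : ∀ t v w, 0 < t → t < N → Anc a b t v → Anc a b t w → v ≠ t → w ≠ t → P t v < t →
    t < Q t v → P t w < t → t < Q t w → v < w → (w < t ↔ v < t) → Q' t v ≤ w
  ch : ∀ t u v, 0 < t → t < N → 0 < u → u < N → Child a b t u → Anc a b u v →
    P u v = P' t v ∧ Q u v = Q' t v
  tp : ∀ u v, 0 < u → u ≤ v → v < N →
    u ≤ top u v ∧ top u v ≤ v ∧ a (top u v) < u ∧ v < b (top u v)

namespace Game

variable (G : Game)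

def Key (v : ℤ) : Prop := 0 < v ∧ v < G.N

/-- `t` is above `v` or equal -/
abbrev An (t v : ℤ) : Prop := Anc G.a G.b t v

/-- `v` is touched at time `t` -/
def Tch (t v : ℤ) : Prop := G.An t v ∧ v ≠ t ∧ G.P t v < t ∧ t < G.Q t v

variable {G}

theorem Key.refl {v : ℤ} (k : G.Key v) : G.An v v := anc_refl G.T k.1 k.2
theorem Key.of {t v : ℤ} (k : G.Key t) (h : G.An t v) : G.Key v := anc_key G.T k.1 k.2 h
theorem Key.sub {t v : ℤ} (k : G.Key t) (h : G.An t v) :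
    G.a t ≤ G.a v ∧ G.b v ≤ G.b t ∧ (v < t → G.b v ≤ t) ∧ (t < v → t ≤ G.a v) :=
  anc_sub G.T k.1 k.2 h
theorem Key.trans {t u v : ℤ} (k : G.Key t) (h : G.An t u) (g : G.An u v) : G.An t v :=
  anc_trans G.T k.1 k.2 h g
theorem Key.antisymm {t v : ℤ} (k : G.Key t) (h : G.An t v) (g : G.An v t) : t = v :=
  anc_antisymm G.T k.1 k.2 h g
theorem Key.total {t s v : ℤ} (k : G.Key t) (k' : G.Key s) (h : G.An t v) (g : G.An s v) :
    G.An t s ∨ G.An s t := anc_total G.T k.1 k.2 k'.1 k'.2 h g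
theorem Key.bd {v : ℤ} (k : G.Key v) : 0 ≤ G.a v ∧ G.a v < v ∧ v < G.b v ∧ G.b v ≤ G.N :=
  G.T.pl v k.1 k.2

/-- one step down the time tree -/
theorem step {r u v : ℤ} (kr : G.Key r) (ku : G.Key u) (c : Child G.a G.b r u) (h : G.An u v) :
    G.An r v ∧ v ≠ r ∧ (r ≤ G.a u ∨ G.b u ≤ r) ∧ G.P u v = G.P' r v ∧ G.Q u v = G.Q' r v ∧
      (¬ G.Tch r v → G.P u v = G.P r v ∧ G.Q u v = G.Q r v) := by
  have c1 := child_anc G.T kr.1 kr.2 ku.1 ku.2 c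
  have h1 := kr.trans c1.1 h
  have h2 : v ≠ r := fun e => c1.2.2 (e ▸ h)
  have h3 := G.ch r u v kr.1 kr.2 ku.1 ku.2 c h
  refine ⟨h1, h2, anc_out G.T kr.1 kr.2 c1.1 c1.2.1, h3.1, h3.2, fun n => ?_⟩
  have := G.un r v kr.1 kr.2 h1 h2 fun k => n ⟨h1, h2, k⟩
  omega

theorem par {t r u : ℤ} (kt : G.Key t) (kr : G.Key r) (ku : G.Key u) (c : Child G.a G.b r u)
    (h : G.An t u) (ne : t ≠ u) : G.An t r :=
  anc_par G.T kt.1 kt.2 kr.1 kr.2 ku.1 ku.2 c h ne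

/-- history of a node between two times -/
theorem hist {t : ℤ} (kt : G.Key t) (v : ℤ) : ∀ s, G.An t s → G.An s v →
    (G.P s v = G.P t v ∧ G.Q s v = G.Q t v ∧
      ∀ τ, G.An t τ → G.An τ s → τ ≠ s → ¬ G.Tch τ v) ∨
    ∃ τ, G.An t τ ∧ G.An τ s ∧ τ ≠ s ∧ G.Tch τ v ∧ G.P s v = G.P' τ v ∧ G.Q s v = G.Q' τ v ∧
      ∀ σ, G.An τ σ → G.An σ s → σ ≠ τ → σ ≠ s → ¬ G.Tch σ v := by
  refine anc_ind G.T kt.1 kt.2 _ (fun _ => Or.inl ⟨rfl, rfl, fun τ h1 h2 ne =>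
    absurd (kt.antisymm h1 h2).symm ne⟩) fun r u hr u1 u2 c M hv => ?_
  have kr := kt.of hr
  have ku : G.Key u := ⟨u1, u2⟩
  have c1 := child_anc G.T kr.1 kr.2 u1 u2 c
  obtain ⟨s1, s2, -, s4, s5, s6⟩ := step kr ku c hv
  by_cases tc : G.Tch r v
  · refine Or.inr ⟨r, hr, c1.1, c1.2.1, tc, s4, s5, fun σ h1 h2 n1 n2 => ?_⟩
    exact absurd (kr.antisymm h1 (par (kr.of h1) kr ku c h2 n2)).symm n1
  · obtain ⟨e1, e2⟩ := s6 tc
    rcases M s1 with ⟨m1, m2, m3⟩ | ⟨τ, m1, m2, m3, m4, m5, m6, m7⟩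
    · refine Or.inl ⟨by omega, by omega, fun τ h1 h2 ne => ?_⟩
      by_cases e : τ = r
      · exact e ▸ tc
      · exact m3 τ h1 (par (kt.of h1) kr ku c h2 ne) e
    · have kτ := kt.of m1
      refine Or.inr ⟨τ, m1, kτ.trans m2 c1.1, fun e => c1.2.2 (e ▸ m2), m4, by omega, by omega,
        fun σ h1 h2 n1 n2 => ?_⟩
      by_cases e : σ = r
      · exact e ▸ tc
      · exact m7 σ h1 (par (kτ.of h1) kr ku c h2 n2) n1 e

/-- freezing -/
theorem freeze {t : ℤ} (kt : G.Key t) (v : ℤ) : ∀ s, G.An t s → s ≠ t → G.An s v →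
    G.a s ≤ G.P' t v → G.Q' t v ≤ G.b s → G.P s v = G.P' t v ∧ G.Q s v = G.Q' t v := by
  refine anc_ind G.T kt.1 kt.2 _ (fun h => absurd rfl h) fun r u hr u1 u2 c M _ hv h1 h2 => ?_
  have kr := kt.of hr
  have ku : G.Key u := ⟨u1, u2⟩
  have c1 := child_anc G.T kr.1 kr.2 u1 u2 c
  obtain ⟨s1, s2, s3, s4, s5, s6⟩ := step kr ku c hv
  by_cases e : r = t
  · subst e
    exact ⟨s4, s5⟩
  · have k := kr.sub c1.1
    have m := M e s1 (by omega) (by omega)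
    have := s6 fun tc => by
      have := tc.2.2
      omega
    omega

/-- nodes between two consecutive touched nodes -/
theorem inner {t c c' w : ℤ} (kt : G.Key t) (h : G.Tch t c) (h' : G.Tch t c')
    (sd : c < t ↔ c' < t) (w1 : c < w) (w2 : w < c')
    (no : ∀ y, c < y → y < c' → ¬ G.Tch t y) : c ≤ G.P' t w ∧ G.Q' t w ≤ c' := by
  obtain ⟨a1, a2, a3, a4⟩ := h
  obtain ⟨b1, b2, b3, b4⟩ := h'
  have hw : G.An t w := by unfold An Anc at *; omega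
  have wt : w ≠ t := by omega
  have nt : ¬ (G.P t w < t ∧ t < G.Q t w) := fun k => no w w1 w2 ⟨hw, wt, k⟩
  have u := G.un t w kt.1 kt.2 hw wt nt
  have p := G.pl t w kt.1 kt.2 hw
  have k1 := G.l1 t c' w kt.1 kt.2 b1 hw
  have k2 := G.l1 t w c kt.1 kt.2 hw a1
  have k3 := G.l2 t c w kt.1 kt.2 a1 hw
  have k4 := G.l2 t w c' kt.1 kt.2 hw b1
  omega

/-- such nodes are not touched while the time stays outside -/
theorem notch {t s c c' w : ℤ} (kt : G.Key t) (h : G.An t s) (ne : s ≠ t) (w1 : c < w)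
    (w2 : w < c') (i1 : c ≤ G.P' t w) (i2 : G.Q' t w ≤ c') (s1 : G.a s ≤ c) (s2 : c' ≤ G.b s)
    (so : s ≤ c ∨ c' ≤ s) : ¬ G.Tch s w := by
  intro k
  have := freeze kt w s h ne k.1 (by omega) (by omega)
  have := k.2.2
  omega

theorem qbig {t c c' : ℤ} (kt : G.Key t) (h : G.Tch t c) (cc : c < c') : ∀ r, G.An t r →
    G.An r c → G.An r c' →
    (∀ τ w, G.An t τ → G.An τ r → τ ≠ r → c < w → w < c' → ¬ G.Tch τ w) →
    r = t ∨ c' < G.Q r c ∨ ∃ τ, G.An t τ ∧ G.An τ r ∧ G.Tch τ c ∧ G.Tch τ c' := by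
  refine anc_ind G.T kt.1 kt.2 _ (fun _ _ _ => Or.inl rfl) fun r u hr u1 u2 ch M hc hc' no => ?_
  have kr := kt.of hr
  have ku : G.Key u := ⟨u1, u2⟩
  have c1 := child_anc G.T kr.1 kr.2 u1 u2 ch
  obtain ⟨s1, s2, s3, s4, s5, s6⟩ := step kr ku ch hc
  obtain ⟨f1, f2, -⟩ := step kr ku ch hc'
  by_cases tc : G.Tch r c
  · by_cases tc' : G.Tch r c'
    · exact Or.inr (Or.inr ⟨r, hr, c1.1, tc, tc'⟩)
    · refine Or.inr (Or.inl ?_)
      by_contra hn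
      have k := G.q1 r c kr.1 kr.2 s1 s2 tc.2.2.1 tc.2.2.2
      have k2 : G.Tch r (G.Q' r c) := by
        unfold Tch An Anc at *
        omega
      by_cases e : G.Q' r c = c'
      · exact tc' (e ▸ k2)
      · exact no r _ hr c1.1 c1.2.1 k.1 (by omega) k2
  · rcases M s1 f1 fun τ w h1 h2 n => no τ w h1 ((kt.of h1).trans h2 c1.1)
      fun e => c1.2.2 (e ▸ h2) with m | m | ⟨τ, m1, m2, m3⟩
    · exact absurd (m ▸ h) tc
    · have := s6 tc
      exact Or.inr (Or.inl (by omega))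
    · exact Or.inr (Or.inr ⟨τ, m1, (kt.of m1).trans m2 c1.1, m3⟩)

theorem psmall {t c c' : ℤ} (kt : G.Key t) (h : G.Tch t c') (cc : c < c') : ∀ r, G.An t r →
    G.An r c → G.An r c' →
    (∀ τ w, G.An t τ → G.An τ r → τ ≠ r → c < w → w < c' → ¬ G.Tch τ w) →
    r = t ∨ G.P r c' < c ∨ ∃ τ, G.An t τ ∧ G.An τ r ∧ G.Tch τ c ∧ G.Tch τ c' := by
  refine anc_ind G.T kt.1 kt.2 _ (fun _ _ _ => Or.inl rfl) fun r u hr u1 u2 ch M hc hc' no => ?_
  have kr := kt.of hr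
  have ku : G.Key u := ⟨u1, u2⟩
  have c1 := child_anc G.T kr.1 kr.2 u1 u2 ch
  obtain ⟨s1, s2, s3, s4, s5, s6⟩ := step kr ku ch hc'
  obtain ⟨f1, f2, -⟩ := step kr ku ch hc
  by_cases tc' : G.Tch r c'
  · by_cases tc : G.Tch r c
    · exact Or.inr (Or.inr ⟨r, hr, c1.1, tc, tc'⟩)
    · refine Or.inr (Or.inl ?_)
      by_contra hn
      have k := G.p1 r c' kr.1 kr.2 s1 s2 tc'.2.2.1 tc'.2.2.2
      have k2 : G.Tch r (G.P' r c') := by
        unfold Tch An Anc at *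
        omega
      by_cases e : G.P' r c' = c
      · exact tc (e ▸ k2)
      · exact no r _ hr c1.1 c1.2.1 (by omega) k.1 k2
  · rcases M f1 s1 fun τ w h1 h2 n => no τ w h1 ((kt.of h1).trans h2 c1.1)
      fun e => c1.2.2 (e ▸ h2) with m | m | ⟨τ, m1, m2, m3⟩
    · exact absurd (m ▸ h) tc'
    · have := s6 tc'
      exact Or.inr (Or.inl (by omega))
    · exact Or.inr (Or.inr ⟨τ, m1, (kt.of m1).trans m2 c1.1, m3⟩)

/-- two nodes touched in a window of times with nothing touched between them are touched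
simultaneously -/
theorem both {t0 t1 t t' c c' : ℤ} (k0 : G.Key t0) (h0 : G.An t0 t) (h1 : G.An t t1)
    (h0' : G.An t0 t') (h1' : G.An t' t1) (h : G.Tch t c) (h' : G.Tch t' c') (cc : c < c')
    (hc : G.An t1 c) (hc' : G.An t1 c')
    (no : ∀ τ w, G.An t0 τ → G.An τ t1 → c < w → w < c' → ¬ G.Tch τ w) :
    ∃ τ, G.An t0 τ ∧ G.An τ t1 ∧ G.Tch τ c ∧ G.Tch τ c' := by
  have kt := k0.of h0
  have kt' := k0.of h0'
  rcases kt.total kt' h1 h1' with o | o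
  · rcases qbig kt h cc t' o (kt'.trans h1' hc) h'.1 fun τ w a1 a2 _ =>
      no τ w (k0.trans h0 a1) ((kt.of a1).trans a2 h1') with m | m | ⟨τ, m1, m2, m3⟩
    · exact ⟨t, h0, h1, h, m ▸ h'⟩
    · have a := kt'.trans h1' hc
      have k := G.l2 t' c c' kt'.1 kt'.2 a h'.1 cc m
      have p := G.pl t' c kt'.1 kt'.2 a
      have := h'.2.2
      exact ⟨t', h0', h1', ⟨a, by omega, by omega, by omega⟩, h'⟩
    · exact ⟨τ, k0.trans h0 m1, (kt.of m1).trans m2 h1', m3⟩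
  · rcases psmall kt' h' cc t o h.1 (kt.trans h1 hc') fun τ w a1 a2 _ =>
      no τ w (k0.trans h0' a1) ((kt'.of a1).trans a2 h1) with m | m | ⟨τ, m1, m2, m3⟩
    · exact ⟨t, h0, h1, h, m ▸ h'⟩
    · have a := kt.trans h1 hc'
      have k := G.l1 t c' c kt.1 kt.2 a h.1 m cc
      have p := G.pl t c' kt.1 kt.2 a
      have := h.2.2
      exact ⟨t, h0, h1, h, ⟨a, by omega, by omega, by omega⟩⟩
    · exact ⟨τ, k0.trans h0' m1, (kt'.of m1).trans m2 h1, m3⟩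

open Classical in
/-- the touched nodes at time `t` -/
noncomputable def U (G : Game) (t : ℤ) : Finset ℤ := (Finset.Ioo 0 G.N).filter (G.Tch t)

/-- the items touched at time `t` -/
noncomputable def A (G : Game) (t : ℤ) : Finset ℤ :=
  (G.U t).image fun c => G.top c (G.Q' t c - 1)

theorem top_eq {u v k : ℤ} (u1 : 0 < u) (v2 : v < G.N) (k1 : u ≤ k) (k2 : k ≤ v)
    (k3 : G.a k < u) (k4 : v < G.b k) : G.top u v = k := by
  have := G.tp u v u1 (by omega) v2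
  have kk : G.Key k := ⟨by omega, by omega⟩
  exact (kk.antisymm (by unfold An Anc; omega) (by unfold An Anc; omega)).symm

/-- the two-sided lemma, with ordered ends of the window -/
theorem ts0 {t0 t1 s g1 g2 tu tv nu nv : ℤ} (k0 : G.Key t0) (hu0 : G.An t0 tu) (hu1 : G.An tu t1)
    (hv0 : G.An t0 tv) (hv1 : G.An tv t1) (hs : G.An t1 s) (ne : s ≠ t1)
    (hu : G.Tch tu nu) (hv : G.Tch tv nv) (a1 : G.a s < nu) (a2 : nv < G.b s)
    (so : s < nu ∨ nv < s) (h1 : G.Tch s g1) (h2 : G.Tch s g2) (g12 : g1 < g2)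
    (e1 : nu ≤ G.top g1 (g2 - 1)) (e2 : G.top g1 (g2 - 1) < nv) :
    ∃ τ, G.An t0 τ ∧ G.An τ t1 ∧ G.top g1 (g2 - 1) ∈ G.A τ := by
  classical
  have k1 := k0.of (k0.trans hu0 hu1)
  have ks := k1.of hs
  have bs := ks.bd
  have sb := k1.sub hs
  have kg1 := ks.of h1.1
  have kg2 := ks.of h2.1
  have tp := G.tp g1 (g2 - 1) kg1.1 (by omega) (by have := kg2.2; omega)
  generalize G.top g1 (g2 - 1) = e at *
  obtain ⟨c, hc, cm⟩ := Finset.exists_max_image ((Finset.Icc nu e).filter fun y =>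
    ∃ τ, G.An t0 τ ∧ G.An τ t1 ∧ G.Tch τ y) id
    ⟨nu, Finset.mem_filter.2 ⟨Finset.mem_Icc.2 ⟨le_rfl, e1⟩, tu, hu0, hu1, hu⟩⟩
  obtain ⟨c', hc', cm'⟩ := Finset.exists_min_image ((Finset.Ioc e nv).filter fun y =>
    ∃ τ, G.An t0 τ ∧ G.An τ t1 ∧ G.Tch τ y) id
    ⟨nv, Finset.mem_filter.2 ⟨Finset.mem_Ioc.2 ⟨e2, le_rfl⟩, tv, hv0, hv1, hv⟩⟩
  obtain ⟨c1, t, c2, c3, c4⟩ := Finset.mem_filter.1 hc
  obtain ⟨d1, t', d2, d3, d4⟩ := Finset.mem_filter.1 hc'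
  rw [Finset.mem_Icc] at c1
  rw [Finset.mem_Ioc] at d1
  have no : ∀ τ w, G.An t0 τ → G.An τ t1 → c < w → w < c' → ¬ G.Tch τ w := by
    intro τ w x1 x2 w1 w2 x3
    by_cases o : w ≤ e
    · have := cm w (Finset.mem_filter.2 ⟨Finset.mem_Icc.2 ⟨by omega, o⟩, τ, x1, x2, x3⟩)
      simp only [id] at this
      omega
    · have := cm' w (Finset.mem_filter.2 ⟨Finset.mem_Ioc.2 ⟨by omega, by omega⟩, τ, x1, x2, x3⟩)
      simp only [id] at this
      omega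
  obtain ⟨τ, x1, x2, x3, x4⟩ := both k0 c2 c3 d2 d3 c4 d4 (by omega)
    (by unfold An Anc; omega) (by unfold An Anc; omega) no
  have kτ := k0.of x1
  have xs := kτ.trans x2 hs
  have ns : s ≠ τ := fun e => ne (k1.antisymm hs (e ▸ x2)).symm
  have out := anc_out G.T kτ.1 kτ.2 xs ns.symm
  have sd : c < τ ↔ c' < τ := by omega
  have nt : ∀ w, c < w → w < c' → ¬ G.Tch s w := fun w w1 w2 => by
    have i := inner kτ x3 x4 sd w1 w2 fun y => no τ y x1 x2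
    exact notch kτ xs ns w1 w2 i.1 i.2 (by omega) (by omega) (by omega)
  have n1 := nt g1
  have n2 := nt g2
  have q1 := G.q1 τ c kτ.1 kτ.2 x3.1 x3.2.1 x3.2.2.1 x3.2.2.2
  have q2 := G.q2 τ c c' kτ.1 kτ.2 x3.1 x4.1 x3.2.1 x4.2.1 x3.2.2.1 x3.2.2.2 x4.2.2.1 x4.2.2.2
    (by omega) sd.symm
  have qe : G.Q' τ c = c' := by
    by_contra hn
    refine no τ (G.Q' τ c) x1 x2 q1.1 (by omega) ?_
    have := x3.1
    have := x4.1
    unfold Tch An Anc at *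
    omega
  refine ⟨τ, x1, x2, Finset.mem_image.2 ⟨c, Finset.mem_filter.2
    ⟨Finset.mem_Ioo.2 (kτ.of x3.1), x3⟩, ?_⟩⟩
  rw [qe]
  have g1c : g1 ≤ c := by
    by_contra hn
    exact n1 (by omega) (by omega) h1
  have g2c : c' ≤ g2 := by
    by_contra hn
    exact n2 (by omega) (by omega) h2
  exact top_eq (by omega) (by omega) (by omega) (by omega) (by omega) (by omega)

/-- the two-sided lemma -/
theorem ts {s g1 g2 tu tv nu nv : ℤ} (ku : G.Key tu) (kv : G.Key tv) (su : G.An tu s)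
    (sv : G.An tv s) (nu' : s ≠ tu) (nv' : s ≠ tv)
    (hu : G.Tch tu nu) (hv : G.Tch tv nv) (a1 : G.a s < nu) (a2 : nv < G.b s)
    (so : s < nu ∨ nv < s) (h1 : G.Tch s g1) (h2 : G.Tch s g2) (g12 : g1 < g2)
    (e1 : nu ≤ G.top g1 (g2 - 1)) (e2 : G.top g1 (g2 - 1) < nv) :
    ∃ τ, (G.An tu τ ∧ G.An τ tv ∨ G.An tv τ ∧ G.An τ tu) ∧ G.top g1 (g2 - 1) ∈ G.A τ := by
  rcases ku.total kv su sv with o | o
  · obtain ⟨τ, x1, x2, x3⟩ := ts0 ku ku.refl o o kv.refl sv nv' hu hv a1 a2 so h1 h2 g12 e1 e2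
    exact ⟨τ, Or.inl ⟨x1, x2⟩, x3⟩
  · obtain ⟨τ, x1, x2, x3⟩ := ts0 kv o ku.refl kv.refl o su nu' hu hv a1 a2 so h1 h2 g12 e1 e2
    exact ⟨τ, Or.inr ⟨x1, x2⟩, x3⟩

end Game

end Pool.Agent.Lib.GR7
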