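import Pool.Agent.Lib.GR7.Virt

set_option autoImplicit false
set_option linter.unusedVariables false

/-! From a preorder run of the interval model to the game. -/

namespace Pool.Agent.Lib.GR7

open Pool.Agent.Lib.MP_3ecc11_lc Pool.Agent.Lib.TV19 Finset BT St

/-- search tree with keys strictly between the bounds -/
def Bst : ℤ → ℤ → BT ℤ → Prop
  | lo, hi, nil => lo < hi
  | lo, hi, node l x r => Bst lo x l ∧ Bst x hi r

/-- the first tree is a top part of the second -/
def Ext : BT ℤ → BT ℤ → Prop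
  | nil, _ => True
  | node _ _ _, nil => False
  | node l x r, node l' y r' => x = y ∧ Ext l l' ∧ Ext r r'

theorem ex_full : ∀ (n : ℕ) (lo : ℤ), ∃ T, Full lo (lo + n + 1) T
  | 0, lo => ⟨nil, by simp [Full]⟩
  | n + 1, lo => by
    obtain ⟨T, h⟩ := ex_full n (lo + 1)
    refine ⟨node nil (lo + 1) T, rfl, ?_⟩
    rw [show lo + ((n + 1 : ℕ) : ℤ) + 1 = lo + 1 + n + 1 by push_cast; ring]
    exact h

theorem ex_ext : ∀ (T : BT ℤ) (lo hi : ℤ), Bst lo hi T → ∃ U, Full lo hi U ∧ Ext T U
  | nil, lo, hi, h => by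
    obtain ⟨U, hU⟩ := ex_full (hi - lo - 1).toNat lo
    unfold Bst at h
    rw [show lo + ((hi - lo - 1).toNat : ℤ) + 1 = hi by omega] at hU
    exact ⟨U, hU, trivial⟩
  | node l x r, lo, hi, h => by
    obtain ⟨U, a1, a2⟩ := ex_ext l lo x h.1
    obtain ⟨V, b1, b2⟩ := ex_ext r x hi h.2
    exact ⟨node U x V, ⟨a1, b1⟩, rfl, a2, b2⟩

theorem ext_node {T l r : BT ℤ} {x : ℤ} (h : Ext T (node l x r)) : ∃ l' r', Ext l' l ∧ Ext r' r ∧
    ((T = nil ∧ l' = nil ∧ r' = nil) ∨ T = node l' x r') := by
  cases T with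
  | nil => exact ⟨nil, nil, trivial, trivial, Or.inl ⟨rfl, rfl, rfl⟩⟩
  | node l' y r' => exact ⟨l', r', h.2.1, h.2.2, Or.inr (by rw [h.1])⟩

theorem rec (b : Bool) (N : ℤ) : ∀ (U : BT ℤ) (lo hi : ℤ), Full lo hi U → 0 ≤ lo → hi ≤ N →
    ∀ T, Ext T U → ∀ s : St, Lm N s → (∀ v, hi < v → v < N → hi ≤ s.p v) →
    Lm N (run b N s (preord T)) ∧
    (∀ v, hi < v → v < N → (run b N s (preord T)).p v = s.p v ∧
      (run b N s (preord T)).q v = s.q v) ∧
    ∃ st : ℤ → St, (∀ r, lo < r → r < hi → pb U lo r = lo → qb U hi r = hi → st r = s) ∧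
      (∀ t, lo < t → t < hi → Lm N (st t)) ∧
      (∀ t u v, lo < t → t < hi → lo < u → u < hi → Child (pb U lo) (qb U hi) t u →
        Anc (pb U lo) (qb U hi) u v → (st u).p v = ((st t).upd b N t).p v ∧
          (st u).q v = ((st t).upd b N t).q v) ∧
      vc b N s (preord T) + Ps N (run b N s (preord T)) hi ≤
        ∑ t ∈ Ioo lo hi, (uc N (pb U lo t) (qb U hi t) t (st t) + 3) + Ps N s lo
  | nil, lo, hi, hU, a0, bN, T, hT, s, hs, inv => by
    unfold Full at hU
    cases T with
    | node _ _ _ => exact hT.elim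
    | nil =>
      refine ⟨hs, fun _ _ _ => ⟨rfl, rfl⟩, fun _ => s, fun _ _ _ _ _ => rfl, fun _ _ _ => hs,
        fun t u v _ _ => by omega, ?_⟩
      have := Ps_mono (N := N) (s := s) (show lo ≤ hi by omega)
      simp only [preord, vc, run]
      omega
  | node l x r, lo, hi, hU, a0, bN, T, hT, s, hs, inv => by
    have ax := hU.1.lt
    have xb := hU.2.lt
    have lamL := hU.1.lam
    have lamR := hU.2.lam
    obtain ⟨l', r', el, er, hc⟩ := ext_node hT
    have x0 : 0 < x := by omega
    have xN : x < N := by omega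
    have s1 := hs.upd x0 xN b
    have un : ∀ v, hi < v → v < N → (s.upd b N x).p v = s.p v ∧ (s.upd b N x).q v = s.q v :=
      fun v v1 v2 => upd_un (by omega) fun z => by
        have := inv v v1 v2
        have := z.1
        omega
    obtain ⟨f2, u1, st1, r1, l1, c1, k1⟩ := rec b N l lo x hU.1 a0 (by omega) l' el _ s1
      fun v v1 v2 => hs.after x0 xN b v1 v2
    obtain ⟨f3, u2, st2, r2, l2, c2, k2⟩ := rec b N r x hi hU.2 (by omega) bN r' er _ f2
      fun v v1 v2 => by
        rw [(u1 v (by omega) v2).1, (un v v1 v2).1]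
        exact inv v v1 v2
    let st : ℤ → St := fun t => if t < x then st1 t else if x < t then st2 t else s
    have eL : ∀ v, v < x → pb (node l x r) lo v = pb l lo v ∧
        qb (node l x r) hi v = qb l x v ∧ st v = st1 v :=
      fun v v2 => ⟨pb_lt v2, qb_lt v2, if_pos v2⟩
    have eR : ∀ v, x < v → pb (node l x r) lo v = pb r x v ∧
        qb (node l x r) hi v = qb r hi v ∧ st v = st2 v :=
      fun v v1 => ⟨pb_gt v1, qb_gt v1, by simp only [st, if_neg (not_lt.2 v1.le), if_pos v1]⟩
    have eX : pb (node l x r) lo x = lo ∧ qb (node l x r) hi x = hi ∧ st x = s :=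
      ⟨pb_eq, qb_eq, by simp only [st, lt_irrefl, if_false]⟩
    have g1 : ∀ t, lo < t → t < hi → pb (node l x r) lo t = lo → qb (node l x r) hi t = hi →
        st t = s := fun t t1 t2 t3 t4 => by
      rcases lt_trichotomy t x with g | g | g
      · have := lamL.pl t t1 g
        have := eL t g
        omega
      · rw [g]
        exact eX.2.2
      · have := lamR.pl t g t2
        have := eR t g
        omega
    have g2 : ∀ t, lo < t → t < hi → Lm N (st t) := fun t t1 t2 => by
      rcases lt_trichotomy t x with g | g | g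
      · rw [(eL t g).2.2]
        exact l1 t t1 g
      · rw [g, eX.2.2]
        exact hs
      · rw [(eR t g).2.2]
        exact l2 t g t2
    have g3 : ∀ t u v, lo < t → t < hi → lo < u → u < hi →
        Child (pb (node l x r) lo) (qb (node l x r) hi) t u →
        Anc (pb (node l x r) lo) (qb (node l x r) hi) u v →
        (st u).p v = ((st t).upd b N t).p v ∧ (st u).q v = ((st t).upd b N t).q v := by
      intro t u v t1 t2 v1 v2 ch an
      unfold Child at ch
      unfold Anc at an
      rcases lt_trichotomy u x with g | g | g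
      · have pu := lamL.pl u v1 g
        obtain ⟨e1, e2, e3⟩ := eL u g
        rcases lt_trichotomy t x with g' | g' | g'
        · obtain ⟨d1, d2, d3⟩ := eL t g'
          rw [e3, d3]
          exact c1 t u v t1 g' v1 g (by unfold Child; omega) (by unfold Anc; omega)
        · subst g'
          rw [e3, eX.2.2, r1 u v1 g (by omega) (by omega)]
          exact ⟨rfl, rfl⟩
        · omega
      · subst g
        omega
      · have pu := lamR.pl u g v2
        obtain ⟨e1, e2, e3⟩ := eR u g
        rcases lt_trichotomy t x with g' | g' | g'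
        · omega
        · subst g'
          rw [e3, eX.2.2, r2 u g v2 (by omega) (by omega)]
          exact u1 v (by omega) (by omega)
        · obtain ⟨d1, d2, d3⟩ := eR t g'
          rw [e3, d3]
          exact c2 t u v g' t2 g v2 (by unfold Child; omega) (by unfold Anc; omega)
    rcases hc with ⟨rfl, -, -⟩ | rfl
    · refine ⟨hs, fun _ _ _ => ⟨rfl, rfl⟩, st, g1, g2, g3, ?_⟩
      have := Ps_mono (N := N) (s := s) (show lo ≤ hi by omega)
      simp only [preord, vc, run]
      omega
    · have e : run b N s (preord (node l' x r')) =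
          run b N (run b N (s.upd b N x) (preord l')) (preord r') := by
        simp only [preord, run, run_append]
      rw [e]
      refine ⟨f3, fun v v1 v2 => ?_, st, g1, g2, g3, ?_⟩
      · have e1 := u2 v v1 v2
        have e2 := u1 v (by omega) v2
        have e3 := un v v1 v2
        omega
      · have t1 : ∑ t ∈ Ioo lo x, (uc N (pb (node l x r) lo t) (qb (node l x r) hi t) t (st t) + 3)
            = ∑ t ∈ Ioo lo x, (uc N (pb l lo t) (qb l x t) t (st1 t) + 3) :=
          sum_congr rfl fun t ht => by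
            obtain ⟨d1, d2, d3⟩ := eL t (mem_Ioo.1 ht).2
            rw [d1, d2, d3]
        have t2 : ∑ t ∈ Ioo x hi, (uc N (pb (node l x r) lo t) (qb (node l x r) hi t) t (st t) + 3)
            = ∑ t ∈ Ioo x hi, (uc N (pb r x t) (qb r hi t) t (st2 t) + 3) :=
          sum_congr rfl fun t ht => by
            obtain ⟨d1, d2, d3⟩ := eR t (mem_Ioo.1 ht).1
            rw [d1, d2, d3]
        rw [TVH.sum_split _ ax xb, t1, t2, eX.1, eX.2.1, eX.2.2]
        have := hs.cost a0 ax xb bN inv b
        simp only [preord, vc, vc_append]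
        omega

theorem vc_lin : ∃ C : ℕ, ∀ (b : Bool) (N : ℤ) (T : BT ℤ) (s : St), Bst 0 N T → Lm N s →
    vc b N s (preord T) ≤ C * N.toNat := by
  classical
  obtain ⟨C, hC⟩ := Game.total
  refine ⟨C + 4, fun b N T s hT hs => ?_⟩
  obtain ⟨U, hU, e⟩ := ex_ext T 0 N hT
  obtain ⟨-, -, st, -, l, c, k⟩ := rec b N U 0 N hU le_rfl le_rfl T e s hs fun v _ _ => by omega
  have lam := hU.lam
  choose top ht using TVH.top_ex lam
  have key : ∀ t v, 0 < t → t < N → Anc (pb U 0) (qb U N) t v → 0 < v ∧ v < N :=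
    fun t v t1 t2 h => anc_key lam t1 t2 h
  let G : Game := ⟨N, pb U 0, qb U N, fun t => (st t).p, fun t => (st t).q,
    fun t => ((st t).upd b N t).p, fun t => ((st t).upd b N t).q, top, lam,
    fun t v t1 t2 h => by
      have := (l t t1 t2).pl v (key t v t1 t2 h).1 (key t v t1 t2 h).2
      omega,
    fun t v w t1 t2 h _ => (l t t1 t2).l1 v w (key t v t1 t2 h).1 (key t v t1 t2 h).2,
    fun t v w t1 t2 h _ => (l t t1 t2).l2 v w (key t v t1 t2 h).1 (key t v t1 t2 h).2,
    fun t v t1 t2 h ne n => upd_un ne n,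
    fun t v t1 t2 h ne a1 a2 => by
      have := lam.pl t t1 t2
      have p := (st t).pre_spec t (key t v t1 t2 h).1
      rw [(upd_t (fun k => ne k.2) ⟨a1, a2⟩).1]
      exact ⟨p.2.1, fun k _ _ => p.2.2.1 (by omega)⟩,
    fun t v w t1 t2 h h' ne _ a1 a2 a3 a4 o _ => by
      rw [(upd_t (fun k => ne k.2) ⟨a1, a2⟩).1]
      exact ((st t).pre_spec t (key t v t1 t2 h).1).2.2.2 w (key t w t1 t2 h').1 o ⟨a3, a4⟩,
    fun t v t1 t2 h ne a1 a2 => by
      have := lam.pl t t1 t2
      have p := (st t).suc_spec (N := N) t (key t v t1 t2 h).2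
      rw [(upd_t (fun k => ne k.2) ⟨a1, a2⟩).2]
      exact ⟨p.2.1, fun k _ _ => p.2.2.1 (by omega)⟩,
    fun t v w t1 t2 h h' ne _ a1 a2 a3 a4 o _ => by
      rw [(upd_t (fun k => ne k.2) ⟨a1, a2⟩).2]
      exact ((st t).suc_spec (N := N) t (key t v t1 t2 h).2).2.2.2 w (key t w t1 t2 h').2 o
        ⟨a3, a4⟩,
    c, ht⟩
  have h1 := hC G
  have h2 : ∑ t ∈ Ioo 0 N, uc N (pb U 0 t) (qb U N t) t (st t) ≤ (G.S G.TT).card := by
    unfold Game.S
    rw [card_filter, sum_product]
    refine sum_le_sum fun τ _ => le_of_eq ?_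
    unfold uc
    rw [card_filter]
    exact sum_congr rfl fun v _ => by congr
  have h3 : Ps N s 0 ≤ (Ioo 0 N).card := card_filter_le _ _
  rw [sum_add_distrib, sum_const, smul_eq_mul] at k
  have n : (Ioo 0 N).card ≤ N.toNat := by
    rw [Int.card_Ioo]
    omega
  change _ ≤ C * N.toNat at h1
  rw [add_mul]
  omega

end Pool.Agent.Lib.GR7
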