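import Pool.Agent.Lib.GR7.Rot
import Pool.Agent.Lib.GR7.Rec

set_option autoImplicit false
set_option linter.unusedVariables false

/-! The interval model describes the access paths of the greedy algorithm. -/

namespace Pool.Agent.Lib.GR7

open Pool.Agent.Lib.MP_ce2dd3_lc BT St

/-- position of the first request strictly between the bounds -/
def fi (σ : List ℕ) (lo hi : ℤ) : ℕ := σ.findIdx fun z : ℕ => lo < (z : ℤ) ∧ (z : ℤ) < hi

theorem fi_cons (x : ℕ) (σ : List ℕ) (lo hi : ℤ) :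
    fi (x :: σ) lo hi = if lo < (x : ℤ) ∧ (x : ℤ) < hi then 0 else fi σ lo hi + 1 := by
  unfold fi
  rw [List.findIdx_cons]
  by_cases h : lo < (x : ℤ) ∧ (x : ℤ) < hi <;> simp [h]

theorem findIdx_mono {A B : ℕ → Bool} : ∀ σ : List ℕ, (∀ z ∈ σ, A z = true → B z = true) →
    σ.findIdx B ≤ σ.findIdx A
  | [], _ => le_rfl
  | x :: σ, h => by
    have ih := findIdx_mono σ fun z hz => h z (List.mem_cons_of_mem _ hz)
    have h0 := h x List.mem_cons_self
    rw [List.findIdx_cons, List.findIdx_cons]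
    cases hA : A x <;> cases hB : B x <;> simp_all

theorem findIdx_ex {A : ℕ → Bool} {B : ℕ → ℕ → Bool} {W : List ℕ} {m : ℕ} : ∀ σ : List ℕ,
    (∀ z ∈ σ, A z = true → ∃ w ∈ W, B w z = true) → (∀ w ∈ W, m ≤ σ.findIdx (B w)) →
    m ≤ σ.length → m ≤ σ.findIdx A := by
  intro σ h1 h2 h3
  by_contra hn
  have hl : σ.findIdx A < σ.length := by omega
  obtain ⟨w, w1, w2⟩ := h1 _ (List.getElem_mem hl) (List.findIdx_getElem (w := hl))
  have := h2 w w1
  have := List.not_of_lt_findIdx (p := B w) (xs := σ) (i := σ.findIdx A) (by omega)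
  simp_all

/-- the invariant -/
def Inv (σ : List ℕ) (s : St) : ℤ → ℤ → BT → Prop
  | lo, hi, nil => hi = lo + 1
  | lo, hi, node l k r => (lo ≤ s.p k ∧ s.p k < k ∧ k < s.q k ∧ s.q k ≤ hi) ∧
      fi σ (s.p k) (s.q k) ≤ fi σ lo hi ∧ Inv σ s lo k l ∧ Inv σ s k hi r

variable {σ : List ℕ} {s s' : St} {x : ℕ} {N : ℤ}

theorem Inv.lt : ∀ {t : BT} {lo hi : ℤ}, Inv σ s lo hi t → lo < hi
  | nil, lo, hi, h => by unfold Inv at h; omega
  | node l k r, lo, hi, h => by have := h.1; omega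

theorem Inv.bd : ∀ {t : BT} {lo hi : ℤ}, Inv σ s lo hi t → ∀ v, lo < v → v < hi →
    lo ≤ s.p v ∧ s.q v ≤ hi
  | nil, lo, hi, h, v, _, _ => by unfold Inv at h; omega
  | node l k r, lo, hi, h, v, v1, v2 => by
    have := h.1
    rcases lt_trichotomy v k with c | c | c
    · have := h.2.2.1.bd v v1 c
      omega
    · subst c
      omega
    · have := h.2.2.2.bd v c v2
      omega

theorem Inv.zk {l r : BT} {k : ℕ} {lo hi : ℤ} (h : Inv (x :: σ) s lo hi (node l k r))
    (x1 : lo < x) (x2 : (x : ℤ) < hi) : s.Z x k := by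
  have := h.2.1
  rw [fi_cons, fi_cons, if_pos (And.intro x1 x2)] at this
  by_contra c
  rw [if_neg (show ¬ (s.p k < x ∧ x < s.q k) from c)] at this
  omega

theorem Inv.path : ∀ {t : BT} {lo hi : ℤ}, Inv (x :: σ) s lo hi t → lo < x → (x : ℤ) < hi →
    (path x t).Nodup ∧ ∀ v : ℕ, v ∈ path x t ↔ lo < v ∧ (v : ℤ) < hi ∧ s.Z x v
  | nil, lo, hi, h, _, _ => by unfold Inv at h; omega
  | node l k r, lo, hi, h, x1, x2 => by
    have zk := h.zk x1 x2
    have b0 := h.1
    have b1 := h.2.2.1.bd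
    have b2 := h.2.2.2.bd
    rw [MP_ce2dd3_lc.path]
    split_ifs with c1 c2
    · obtain ⟨i1, i2⟩ := h.2.2.1.path x1 (by omega)
      refine ⟨List.nodup_cons.2 ⟨fun m => by have := (i2 k).1 m; omega, i1⟩, fun v => ?_⟩
      rw [List.mem_cons, i2]
      by_cases e : v = k
      · subst e
        simp only [true_or, zk, and_true, true_iff]
        omega
      · have := b2 v
        unfold Z
        omega
    · obtain ⟨i1, i2⟩ := h.2.2.2.path (by omega) x2
      refine ⟨List.nodup_cons.2 ⟨fun m => by have := (i2 k).1 m; omega, i1⟩, fun v => ?_⟩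
      rw [List.mem_cons, i2]
      by_cases e : v = k
      · subst e
        simp only [true_or, zk, and_true, true_iff]
        omega
      · have := b1 v
        unfold Z
        omega
    · refine ⟨List.nodup_singleton _, fun v => ?_⟩
      rw [List.mem_singleton]
      have := b1 v
      have := b2 v
      unfold Z at *
      constructor
      · rintro rfl
        omega
      · omega

theorem Inv.skip : ∀ {t : BT} {lo hi : ℤ}, Inv (x :: σ) s lo hi t → ¬ (lo < x ∧ (x : ℤ) < hi) →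
    (∀ v, lo < v → v < hi → s'.p v = s.p v ∧ s'.q v = s.q v) → Inv σ s' lo hi t
  | nil, lo, hi, h, _, _ => h
  | node l k r, lo, hi, h, n, e => by
    obtain ⟨a1, a2, a3, a4⟩ := h
    obtain ⟨e1, e2⟩ := e k (by omega) (by omega)
    rw [fi_cons, fi_cons, if_neg n, if_neg (by omega)] at a2
    exact ⟨by omega, by rw [e1, e2]; omega,
      a3.skip (by omega) fun v v1 v2 => e v v1 (by omega),
      a4.skip (by omega) fun v v1 v2 => e v (by omega) v2⟩

/-- the invariant along a frontier -/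
def Fr (σ : List ℕ) (s : St) (P : List ℕ) : ℤ → List (ℕ ⊕ BT) → ℤ → Prop
  | lo, [], hi => lo = hi
  | lo, .inl k :: F, hi => lo = k ∧ Fr σ s P lo F hi
  | lo, .inr t :: F, hi => ∃ m, (Inv σ s lo m t ∧ ∀ w ∈ P, ¬ (lo < (w : ℤ) ∧ (w : ℤ) < m)) ∧
      Fr σ s P m F hi

variable {P : List ℕ}

theorem fr_split (k : ℕ) (F2 : List (ℕ ⊕ BT)) (hi : ℤ) : ∀ (F1 : List (ℕ ⊕ BT)) (lo : ℤ),
    Fr σ s P lo (F1 ++ .inl k :: F2) hi ↔ Fr σ s P lo F1 k ∧ Fr σ s P k F2 hi
  | [], lo => ⟨fun h => ⟨h.1, h.1 ▸ h.2⟩, fun h => ⟨h.1, by rw [show lo = k from h.1]; exact h.2⟩⟩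
  | .inl j :: F, lo => by
    rw [List.cons_append, Fr, Fr, fr_split k F2 hi F lo, and_assoc]
  | .inr t :: F, lo => by
    rw [List.cons_append, Fr, Fr]
    simp only [fr_split k F2 hi F]
    exact ⟨fun ⟨m, a, b, c⟩ => ⟨⟨m, a, b⟩, c⟩, fun ⟨⟨m, a, b⟩, c⟩ => ⟨m, a, b, c⟩⟩

theorem fr_one {t : BT} {lo hi : ℤ} : Fr σ s P lo [.inr t] hi ↔
    Inv σ s lo hi t ∧ ∀ w ∈ P, ¬ (lo < (w : ℤ) ∧ (w : ℤ) < hi) :=
  ⟨fun ⟨m, a, b⟩ => by rwa [show m = hi from b] at a, fun h => ⟨hi, h, rfl⟩⟩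

theorem Inv.fr (hP : ∀ v : ℕ, v ∈ P ↔ (0 : ℤ) < v ∧ (v : ℤ) < N ∧ s.Z x v)
    (un : ∀ v : ℤ, v ≠ x → ¬ s.Z x v → s'.p v = s.p v ∧ s'.q v = s.q v) :
    ∀ {t : BT} {lo hi : ℤ}, Inv (x :: σ) s lo hi t → 0 ≤ lo → hi ≤ N →
      Fr σ s' P lo (frontier P t) hi
  | nil, lo, hi, h, _, _ => fr_one.2 ⟨h, fun w _ => by unfold Inv at h; omega⟩
  | node l k r, lo, hi, h, l0, hN => by
    have b0 := h.1
    by_cases c : k ∈ P
    · rw [fr_in c, fr_split]
      exact ⟨h.2.2.1.fr hP un l0 (by omega), h.2.2.2.fr hP un (by omega) hN⟩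
    · rw [fr_out c]
      have n : ¬ (lo < x ∧ (x : ℤ) < hi) := fun n =>
        c ((hP k).2 ⟨by omega, by omega, h.zk n.1 n.2⟩)
      have nz : ∀ v, lo < v → v < hi → ¬ s.Z x v := fun v v1 v2 z => by
        have := h.bd v v1 v2
        unfold Z at z
        omega
      exact fr_one.2 ⟨h.skip n fun v v1 v2 => un v (by omega) (nz v v1 v2),
        fun w hw o => nz w o.1 o.2 ((hP w).1 hw).2.2⟩

theorem fr_lt : ∀ {t : BT} {lo hi : ℤ}, Fr σ s P lo (frontier P t) hi → lo < hi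
  | nil, lo, hi, h => (fr_one.1 h).1.lt
  | node l k r, lo, hi, h => by
    by_cases c : k ∈ P
    · rw [fr_in c, fr_split] at h
      exact lt_trans (fr_lt h.1) (fr_lt h.2)
    · rw [fr_out c] at h
      exact (fr_one.1 h).1.lt

theorem fr_near (z : ℕ) : ∀ {t : BT} {lo hi : ℤ}, Fr σ s P lo (frontier P t) hi → lo < z →
    (z : ℤ) < hi → (∀ w ∈ P, ¬ (lo < (w : ℤ) ∧ (w : ℤ) < hi)) ∨
      ∃ v ∈ top P t, ∀ w ∈ P, w ≠ v → ¬ (z ≤ w ∧ w < v) ∧ ¬ (v < w ∧ w ≤ z)
  | nil, lo, hi, h, _, _ => Or.inl (fr_one.1 h).2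
  | node l k r, lo, hi, h, z1, z2 => by
    by_cases c : k ∈ P
    · rw [fr_in c, fr_split] at h
      rw [top_node c]
      right
      rcases lt_trichotomy z k with o | o | o
      · rcases fr_near z h.1 z1 (by omega) with i | ⟨v, v1, v2⟩
        · exact ⟨k, by simp, fun w hw _ => by have := i w hw; omega⟩
        · exact ⟨v, by simp [v1], v2⟩
      · exact ⟨k, by simp, fun w hw _ => by omega⟩
      · rcases fr_near z h.2 (by omega) z2 with i | ⟨v, v1, v2⟩
        · exact ⟨k, by simp, fun w hw _ => by have := i w hw; omega⟩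
        · exact ⟨v, by simp [v1], v2⟩
    · rw [fr_out c] at h
      exact Or.inl (fr_one.1 h).2

theorem fr_inv (hP : ∀ v : ℕ, v ∈ P ↔ (0 : ℤ) < v ∧ (v : ℤ) < N ∧ s.Z x v)
    (hσ : ∀ z ∈ σ, (0 : ℤ) < z ∧ (z : ℤ) < N) :
    ∀ {t : BT} {lo hi : ℤ}, Fr σ s' P lo (frontier P t) hi → Heap P (key2 σ P) t →
      0 ≤ lo → hi ≤ N → (0 < lo → s.Z x lo) → (hi < N → s.Z x hi) →
      (∀ v, lo < v → v < hi → s.Z x v → s'.p v = s.pre x v ∧ s'.q v = s.suc N x v) →
      Inv σ s' lo hi t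
  | nil, lo, hi, h, _, _, _, _, _, _ => (fr_one.1 h).1
  | node l k r, lo, hi, h, hh, l0, hN, zl, zh, e => by
    by_cases c : k ∈ P
    · have h' := h
      rw [fr_in c, fr_split] at h'
      have a1 := fr_lt h'.1
      have a2 := fr_lt h'.2
      obtain ⟨k1, k2, zk⟩ := (hP k).1 c
      obtain ⟨h1, h2, h3⟩ := hh c
      obtain ⟨e1, e2⟩ := e k a1 a2 zk
      obtain ⟨p1, p2, p3, p4⟩ := s.pre_spec x k1
      obtain ⟨q1, q2, q3, q4⟩ := s.suc_spec x k2
      have p5 := p4 lo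
      have q5 := q4 hi
      refine ⟨⟨?_, by omega, by omega, ?_⟩, ?_,
        fr_inv hP hσ h'.1 h2 l0 (by omega) zl (fun _ => zk) fun v v1 v2 => e v v1 (by omega),
        fr_inv hP hσ h'.2 h3 (by omega) hN (fun _ => zk) zh fun v v1 v2 => e v (by omega) v2⟩
      · by_cases o : 0 < lo
        · have := p4 lo o a1 (zl o)
          omega
        · omega
      · by_cases o : hi < N
        · have := q4 hi o a2 (zh o)
          omega
        · omega
      · refine le_trans (b := key2 σ P k) (findIdx_mono σ fun z hz a => ?_)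
          (findIdx_ex (W := top P (node l k r)) (B := fun v z => decide
            (∀ w ∈ P, w ≠ v → ¬ (z ≤ w ∧ w < v) ∧ ¬ (v < w ∧ w ≤ z))) σ (fun z hz a => ?_)
            (fun w hw => ?_) List.findIdx_le_length)
        · have a := of_decide_eq_true a
          have := hσ z hz
          refine decide_eq_true ⟨?_, ?_⟩
          · by_contra o
            have := a (s.pre x k).toNat ((hP _).2 ⟨by omega, by omega, by
              rw [Int.toNat_of_nonneg p1]
              exact p3 (by omega)⟩) (by omega)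
            omega
          · by_contra o
            have := a (s.suc N x k).toNat ((hP _).2 ⟨by omega, by omega, by
              rw [Int.toNat_of_nonneg (by omega)]
              exact q3 (by omega)⟩) (by omega)
            omega
        · have a := of_decide_eq_true a
          rcases fr_near z h a.1 a.2 with i | ⟨v, v1, v2⟩
          · exact absurd ⟨a1, a2⟩ (i k c)
          · exact ⟨v, v1, decide_eq_true v2⟩
        · rw [top_node c, List.mem_append, List.mem_cons] at hw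
          rcases hw with m | m | m
          · exact h1 w (List.mem_append_left _ m)
          · rw [m]
            exact le_rfl
          · exact h1 w (List.mem_append_right _ m)
    · rw [fr_out c] at h
      exact (fr_one.1 h).1

theorem Inv.len {t : BT} (h : Inv (x :: σ) s 0 N t) (x1 : (0 : ℤ) < x) (x2 : (x : ℤ) < N) :
    0 < (MP_ce2dd3_lc.path x t).length ∧ (MP_ce2dd3_lc.path x t).length ≤ (s.ZS N x).card := by
  classical
  obtain ⟨i1, i2⟩ := h.path x1 x2
  refine ⟨?_, ?_⟩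
  · cases t with
    | nil => unfold Inv at h; omega
    | node l k r => simp [MP_ce2dd3_lc.path]
  · rw [← List.toFinset_card_of_nodup i1]
    refine Finset.card_le_card_of_injOn (fun v : ℕ => (v : ℤ)) (fun v hv => ?_)
      fun u _ v _ e => Int.ofNat_inj.1 e
    have := (i2 v).1 (List.mem_toFinset.1 (Finset.mem_coe.1 hv))
    exact Finset.mem_coe.2 (Finset.mem_filter.2 ⟨Finset.mem_Ioo.2 ⟨this.1, this.2.1⟩, this.2.2⟩)

theorem run_le {b : Bool} {T : BT} {g : ℕ} (h : Greedy2 b T σ g) : ∀ s : St, Lm N s →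
    Inv σ s 0 N T → (keys T).Pairwise (· < ·) →
    (∀ z ∈ σ, z ∈ keys T ∧ (0 : ℤ) < z ∧ (z : ℤ) < N) →
    g ≤ 3 * vc b N s (σ.map fun z : ℕ => (z : ℤ)) := by
  induction h with
  | done => exact fun _ _ _ _ _ => Nat.zero_le _
  | @lucas T T' x σ g st _ ih =>
    intro s hs hi so hσ
    obtain ⟨x0, x1, x2⟩ := hσ x List.mem_cons_self
    obtain ⟨f1, f2⟩ := st.fr so x0
    have hP := (hi.path x1 x2).2
    have ln := hi.len x1 x2
    have ek := keys_eq_of_frontier (f1.trans f2)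
    have rd := rdist_le f1 (by rw [keys_eq_of_frontier f2]; exact so)
    have fr : Fr σ (s.upd true N x) _ 0 _ N := hi.fr hP (fun v => upd_un) le_rfl le_rfl
    have h2 : ∀ z ∈ σ, (0 : ℤ) < z ∧ (z : ℤ) < N := fun z hz =>
      (hσ z (List.mem_cons_of_mem _ hz)).2
    have zx := hs.zx x1 x2
    obtain ⟨l, r, l', r', -, rfl, -, -, a1, a2⟩ := st
    rw [← f2, ← f1, fr_in ((hP x).2 ⟨x1, x2, zx⟩), fr_split] at fr
    have := ih _ (hs.upd x1 x2 true) ⟨by rw [upd_x.1, upd_x.2]; omega, by rw [upd_x.1, upd_x.2],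
      fr_inv hP h2 fr.1 a1 le_rfl x2.le (fun k => absurd k (lt_irrefl _)) (fun _ => zx)
        fun v _ v2 => upd_t (by omega),
      fr_inv hP h2 fr.2 a2 x1.le le_rfl (fun _ => zx) (fun k => absurd k (lt_irrefl _))
        fun v v1 _ => upd_t (by omega)⟩ (ek ▸ so)
      fun z hz => ⟨ek ▸ (hσ z (List.mem_cons_of_mem _ hz)).1, h2 z hz⟩
    simp only [List.map_cons, vc, depth]
    omega
  | @munro T T' x σ g st _ ih =>
    intro s hs hi so hσ
    obtain ⟨x0, x1, x2⟩ := hσ x List.mem_cons_self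
    have hP := (hi.path x1 x2).2
    have ln := hi.len x1 x2
    have ek := keys_eq_of_frontier st.1
    have rd := rdist_le st.1 so
    have fr : Fr σ (s.upd false N x) _ 0 _ N := hi.fr hP (fun v => upd_un) le_rfl le_rfl
    have h2 : ∀ z ∈ σ, (0 : ℤ) < z ∧ (z : ℤ) < N := fun z hz =>
      (hσ z (List.mem_cons_of_mem _ hz)).2
    rw [← st.1] at fr
    have := ih _ (hs.upd x1 x2 false) (fr_inv hP h2 fr st.2 le_rfl le_rfl
      (fun k => absurd k (lt_irrefl _)) (fun k => absurd k (lt_irrefl _))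
      fun v _ _ => upd_t (by simp)) (ek ▸ so)
      fun z hz => ⟨ek ▸ (hσ z (List.mem_cons_of_mem _ hz)).1, h2 z hz⟩
    simp only [List.map_cons, vc, depth]
    omega

end Pool.Agent.Lib.GR7
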