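import Pool.Agent.Lib.GR7.Game

set_option autoImplicit false
set_option linter.unusedVariables false

/-! Links of the greedy game. -/

namespace Pool.Agent.Lib.GR7

open Pool.Agent.Lib.MP_3ecc11_lc Pool.Agent.Lib.TV19

namespace Game

variable (G : Game)

def lo (x : ℤ × ℤ) : ℤ := G.P' x.1 x.2
def hi (x : ℤ × ℤ) : ℤ := G.Q' x.1 x.2

/-- a touched node with touched neighbours on both sides -/
def IsLink (x : ℤ × ℤ) : Prop :=
  G.Key x.1 ∧ G.Tch x.1 x.2 ∧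
    ((x.2 < x.1 ∧ G.a x.1 < G.lo x ∧ G.hi x < x.1) ∨ (x.1 < x.2 ∧ x.1 < G.lo x ∧ G.hi x < G.b x.1))

def w (x : ℤ × ℤ) : ℤ := G.top (G.lo x + 1) (G.hi x - 1)
def e (x : ℤ × ℤ) : ℤ := G.top x.2 (G.hi x - 1)
def e' (x : ℤ × ℤ) : ℤ := G.top (G.lo x + 1) x.2

def Left (x : ℤ × ℤ) : Prop := G.IsLink x ∧ G.w x < x.2
def Right (x : ℤ × ℤ) : Prop := G.IsLink x ∧ x.2 < G.w x

variable {G} {x y : ℤ × ℤ}

theorem IsLink.basic (h : G.IsLink x) : G.lo x < x.2 ∧ x.2 < G.hi x ∧ 0 < G.lo x ∧ G.hi x < G.N ∧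
    G.a x.1 < G.lo x ∧ G.hi x < G.b x.1 ∧ (x.1 < G.lo x ∨ G.hi x < x.1) := by
  obtain ⟨k, t, s⟩ := h
  have p := G.p1 x.1 x.2 k.1 k.2 t.1 t.2.1 t.2.2.1 t.2.2.2
  have q := G.q1 x.1 x.2 k.1 k.2 t.1 t.2.1 t.2.2.1 t.2.2.2
  have := k.bd
  unfold lo hi at *
  omega

theorem IsLink.tlo (h : G.IsLink x) : G.Tch x.1 (G.lo x) := by
  have b := h.basic
  obtain ⟨k, t, s⟩ := h
  have p := G.p1 x.1 x.2 k.1 k.2 t.1 t.2.1 t.2.2.1 t.2.2.2
  unfold Tch An Anc lo hi at *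
  omega

theorem IsLink.thi (h : G.IsLink x) : G.Tch x.1 (G.hi x) := by
  have b := h.basic
  obtain ⟨k, t, s⟩ := h
  have q := G.q1 x.1 x.2 k.1 k.2 t.1 t.2.1 t.2.2.1 t.2.2.2
  unfold Tch An Anc lo hi at *
  omega

theorem IsLink.no (h : G.IsLink x) {v : ℤ} (v1 : G.lo x < v) (v2 : v < G.hi x) (ne : v ≠ x.2) :
    ¬ G.Tch x.1 v := by
  intro tv
  have b := h.basic
  obtain ⟨k, t, s⟩ := h
  have p := G.p2 x.1 x.2 v k.1 k.2 t.1 tv.1 t.2.1 tv.2.1 t.2.2.1 t.2.2.2 tv.2.2.1 tv.2.2.2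
  have q := G.q2 x.1 x.2 v k.1 k.2 t.1 tv.1 t.2.1 tv.2.1 t.2.2.1 t.2.2.2 tv.2.2.1 tv.2.2.2
  unfold lo hi at *
  omega

theorem IsLink.inn (h : G.IsLink x) {v : ℤ} (v1 : G.lo x < v) (v2 : v < G.hi x) :
    G.lo x ≤ G.P' x.1 v ∧ G.Q' x.1 v ≤ G.hi x ∧ (x.2 < v → x.2 ≤ G.P' x.1 v) := by
  have b := h.basic
  rcases lt_trichotomy v x.2 with o | o | o
  · have := inner h.1 h.tlo h.2.1 (by omega) v1 o fun y y1 y2 => h.no y1 (by omega) (by omega)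
    omega
  · subst o
    unfold lo hi
    omega
  · have := inner h.1 h.2.1 h.thi (by omega) o v2 fun y y1 y2 => h.no (by omega) y2 (by omega)
    omega

theorem IsLink.geo (h : G.IsLink x) : G.lo x < G.w x ∧ G.w x < G.hi x ∧ G.a (G.w x) ≤ G.lo x ∧
    G.hi x ≤ G.b (G.w x) ∧ x.2 ≤ G.e x ∧ G.e x < G.hi x ∧ G.a (G.e x) < x.2 ∧
    G.hi x ≤ G.b (G.e x) ∧ G.lo x < G.e' x ∧ G.e' x ≤ x.2 ∧ G.a (G.e' x) ≤ G.lo x ∧
    x.2 < G.b (G.e' x) := by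
  have b := h.basic
  have k1 := G.tp (G.lo x + 1) (G.hi x - 1) (by omega) (by omega) (by omega)
  have k2 := G.tp x.2 (G.hi x - 1) (by omega) (by omega) (by omega)
  have k3 := G.tp (G.lo x + 1) x.2 (by omega) (by omega) (by omega)
  unfold w e e'
  omega

theorem IsLink.anc (h : G.IsLink x) : G.An x.1 (G.w x) ∧ G.w x ≠ x.1 ∧ G.An (G.w x) (G.e x) ∧
    G.An (G.w x) (G.e' x) ∧ G.An (G.w x) x.2 ∧ G.Key (G.w x) ∧ G.Key (G.e x) ∧ G.Key (G.e' x) ∧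
    G.An x.1 (G.e x) ∧ G.An x.1 (G.e' x) := by
  have b := h.basic
  have g := h.geo
  unfold An Anc Key
  omega

theorem IsLink.noaff (h : G.IsLink x) {s v : ℤ} (hs : G.An x.1 s) (ne : s ≠ x.1)
    (hw : G.An s (G.w x)) (ne' : s ≠ G.w x) (v1 : G.lo x < v) (v2 : v < G.hi x) :
    ¬ G.Tch s v := by
  have g := h.geo
  have i := h.inn v1 v2
  have ks := h.1.of hs
  have k := ks.sub hw
  exact notch h.1 hs ne v1 v2 i.1 i.2.1 (by omega) (by omega) (by omega)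

theorem IsLink.noaff' (h : G.IsLink x) {s v : ℤ} (hs : G.An x.1 s) (ne : s ≠ x.1)
    (hw : G.An s (G.e x)) (ne' : s ≠ G.e x) (v1 : x.2 < v) (v2 : v < G.hi x) :
    ¬ G.Tch s v := by
  have b := h.basic
  have g := h.geo
  have i := h.inn (v := v) (by omega) v2
  have ks := h.1.of hs
  have k := ks.sub hw
  exact notch h.1 hs ne v1 v2 (i.2.2 v1) i.2.1 (by omega) (by omega) (by omega)

theorem s2_aux (hx : G.Left x) (hy : G.Left y) (t : x.1 = y.1) (m : x.2 < y.2) :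
    G.e x ≤ G.w y := by
  have bx := hx.1.basic
  have b' := hy.1.basic
  have gx := hx.1.geo
  have gy := hy.1.geo
  have n1 := hx.1.no (v := G.lo y)
  have n2 := hy.1.no (v := G.hi x)
  have n3 := hy.1.no (v := x.2)
  have n4 := hx.1.no (v := y.2)
  have t1 := hy.1.tlo
  have t2 := hx.1.thi
  have t3 := hx.1.2.1
  have t4 := hy.1.2.1
  have l := hy.2
  rw [t] at n1 n4 t2 t3
  by_contra hn
  have k1 : x.2 ≤ G.lo y := by
    by_contra k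
    exact n3 (by omega) (by omega) (by omega) t3
  have k2 : G.hi x ≤ y.2 := by
    by_contra k
    exact n4 (by omega) (by omega) (by omega) t4
  have k3 : G.lo y = x.2 := by
    by_contra k
    exact n1 (by omega) (by omega) k t1
  have := hx.1.anc.2.2.2.2.2.2.1.antisymm (v := G.w y) (by unfold An Anc; omega)
    (by unfold An Anc; omega)
  omega

theorem s2 (hx : G.Left x) (hy : G.Left y) (t : x.1 = y.1) (ne : x ≠ y) :
    G.e x ≤ G.w y ∨ G.e y ≤ G.w x := by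
  rcases lt_trichotomy x.2 y.2 with o | o | o
  · exact Or.inl (s2_aux hx hy t o)
  · exact absurd (Prod.ext t o) ne
  · exact Or.inr (s2_aux hy hx t.symm o)

theorem s3 (hx : G.Left x) (hy : G.Left y) (h1 : G.An x.1 y.1) (n1 : y.1 ≠ x.1)
    (h2 : G.An y.1 (G.w x)) (n2 : y.1 ≠ G.w x) :
    (G.e x < G.e y ∨ G.e y < G.w x ∨ G.An (G.e y) (G.w x)) ∧
    (G.e x < G.w y ∨ G.w y < G.w x ∨ G.An (G.w y) (G.w x)) := by
  have bx := hx.1.basic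
  have b' := hy.1.basic
  have gx := hx.1.geo
  have gy := hy.1.geo
  have l := hy.2
  have k1 : ¬ (G.lo x < G.lo y ∧ G.lo y < G.hi x) := fun k =>
    hx.1.noaff h1 n1 h2 n2 k.1 k.2 hy.1.tlo
  have k2 : ¬ (G.lo x < y.2 ∧ y.2 < G.hi x) := fun k =>
    hx.1.noaff h1 n1 h2 n2 k.1 k.2 hy.1.2.1
  have k3 : ¬ (G.lo x < G.hi y ∧ G.hi y < G.hi x) := fun k =>
    hx.1.noaff h1 n1 h2 n2 k.1 k.2 hy.1.thi
  unfold An Anc
  omega

/-- the two-sided lemma for links -/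
theorem s4 {u v : ℤ × ℤ} (hx : G.IsLink x) (hu : G.IsLink u) (hv : G.IsLink v)
    (u1 : G.An u.1 x.1) (u2 : x.1 ≠ u.1) (v1 : G.An v.1 x.1) (v2 : x.1 ≠ v.1)
    (a1 : G.An x.1 (G.e u)) (a2 : G.An x.1 (G.e v)) (so : x.1 < G.e u ∨ G.e v < x.1)
    (e1 : G.e u ≤ G.e x) (e2 : G.e x < G.e v) :
    ∃ τ, (G.An u.1 τ ∧ G.An τ v.1 ∨ G.An v.1 τ ∧ G.An τ u.1) ∧ G.e x ∈ G.A τ := by
  have bx := hx.basic
  have gx := hx.geo
  have gu := hu.geo
  have gv := hv.geo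
  have s1 := hx.1.sub a1
  have s2 := hx.1.sub a2
  have mv : G.e x < v.2 := by
    by_contra hn
    have k1 : ¬ (v.2 < x.2 ∧ x.2 < G.hi v) := fun k =>
      hv.noaff' v1 v2 a2 (by omega) k.1 k.2 hx.2.1
    have k2 : ¬ (v.2 < G.hi x ∧ G.hi x < G.hi v) := fun k =>
      hv.noaff' v1 v2 a2 (by omega) k.1 k.2 hx.thi
    have := hx.anc.2.2.2.2.2.2.1.antisymm (v := G.e v) (by unfold An Anc; omega)
      (by unfold An Anc; omega)
    omega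
  have a2' := a2
  unfold An Anc at a2'
  exact ts hu.1 hv.1 u1 v1 u2 v2 hu.2.1 hv.2.1 (by omega) (by omega) (by omega) hx.2.1 hx.thi
    bx.2.1 (le_trans gu.2.2.2.2.1 e1) mv

/-- the winner of a link is the time of the next touch -/
theorem IsLink.next {τ s m : ℤ} (h : G.IsLink (τ, m)) (hs : G.An τ s) (ne : τ ≠ s)
    (t : G.Tch s m) (p : G.P s m = G.P' τ m) (q : G.Q s m = G.Q' τ m)
    (no : ∀ σ, G.An τ σ → G.An σ s → σ ≠ τ → σ ≠ s → ¬ G.Tch σ m) : G.w (τ, m) = s := by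
  by_contra hn
  have g := h.geo
  have a := h.anc
  have t2 := t.2.2
  have ws : G.An (G.w (τ, m)) s := by
    unfold An Anc lo hi at *
    simp only at *
    omega
  have wm : m ≠ G.w (τ, m) := fun e =>
    t.2.1 (a.2.2.2.2.2.1.antisymm ws (e ▸ t.1) ▸ e)
  have f := freeze h.1 m _ a.1 a.2.1 a.2.2.2.2.1 g.2.2.1 g.2.2.2.1
  refine no _ a.1 ws a.2.1 hn ⟨a.2.2.2.2.1, wm, ?_⟩
  unfold lo hi at g
  simp only at *
  omega

end Game

end Pool.Agent.Lib.GR7
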