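import Pool.Agent.Lib.GR7.Inv

set_option autoImplicit false
set_option linter.unusedVariables false

/-! The greedy algorithm is linear on preorder sequences. -/

namespace Pool.Agent.Lib.GR7

open Pool.Agent.Lib.MP_ce2dd3_lc BT St

/-- the same tree with integer keys -/
def cv : BT → MP_3ecc11_lc.BT ℤ
  | nil => .nil
  | node l k r => .node (cv l) k (cv r)

theorem inord_cv : ∀ t : BT, MP_3ecc11_lc.inord (cv t) = (keys t).map fun z : ℕ => (z : ℤ)
  | nil => rfl
  | node l k r => by simp [cv, MP_3ecc11_lc.inord, keys, inord_cv l, inord_cv r]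

theorem preord_cv : ∀ t : BT, MP_3ecc11_lc.preord (cv t) = (preorder t).map fun z : ℕ => (z : ℤ)
  | nil => rfl
  | node l k r => by simp [cv, MP_3ecc11_lc.preord, preorder, preord_cv l, preord_cv r]

theorem mem_preorder (x : ℕ) : ∀ t : BT, x ∈ preorder t ↔ x ∈ keys t
  | nil => Iff.rfl
  | node l k r => by
    simp only [preorder, keys, List.mem_cons, List.mem_append, mem_preorder x l, mem_preorder x r]
    tauto

theorem bst_cv : ∀ (t : BT) (lo hi : ℤ), lo < hi → (keys t).Pairwise (· < ·) →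
    (∀ v ∈ keys t, lo < (v : ℤ) ∧ (v : ℤ) < hi) → Bst lo hi (cv t)
  | nil, lo, hi, h, _, _ => h
  | node l k r, lo, hi, h, hs, hb => by
    simp only [keys, List.pairwise_append, List.pairwise_cons, List.mem_cons,
      List.mem_append] at hs hb
    obtain ⟨h1, ⟨h2, h3⟩, h4⟩ := hs
    have := hb k (Or.inr (Or.inl rfl))
    refine ⟨bst_cv l lo k this.1 h1 fun v hv => ?_, bst_cv r k hi this.2 h3 fun v hv => ?_⟩
    · have := hb v (Or.inl hv)
      have := h4 v hv k (Or.inl rfl)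
      omega
    · have := hb v (Or.inr (Or.inr hv))
      have := h2 v hv
      omega

theorem inv_init (σ : List ℕ) (s : St) : ∀ (t : BT) (lo hi : ℤ), MP_3ecc11_lc.Full lo hi (cv t) →
    (∀ v, lo < v → v < hi → s.p v = MP_3ecc11_lc.pb (cv t) lo v ∧
      s.q v = MP_3ecc11_lc.qb (cv t) hi v) → Inv σ s lo hi t
  | nil, lo, hi, h, _ => h
  | node l k r, lo, hi, h, e => by
    have a1 := h.1.lt
    have a2 := h.2.lt
    have e0 := e k a1 a2
    rw [cv, MP_3ecc11_lc.pb_eq, MP_3ecc11_lc.qb_eq] at e0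
    refine ⟨by omega, by rw [e0.1, e0.2], inv_init σ s l lo k h.1 fun v v1 v2 => ?_,
      inv_init σ s r k hi h.2 fun v v1 v2 => ?_⟩
    · have := e v v1 (by omega)
      rwa [cv, MP_3ecc11_lc.pb_lt v2, MP_3ecc11_lc.qb_lt v2] at this
    · have := e v (by omega) v2
      rwa [cv, MP_3ecc11_lc.pb_gt v1, MP_3ecc11_lc.qb_gt v1] at this

theorem main : ∃ c : ℕ, ∀ (b : Bool) (n : ℕ) (T₀ T : BT), keys T₀ = List.range' 1 n →
    (keys T).Sublist (keys T₀) → ∀ g, Greedy2 b T₀ (preorder T) g → g ≤ c * n := by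
  obtain ⟨C, hC⟩ := vc_lin
  refine ⟨6 * C, fun b n T₀ T h0 hT g hg => ?_⟩
  rcases Nat.eq_zero_or_pos n with rfl | hn
  · cases T with
    | nil =>
      cases hg
      exact le_rfl
    | node l k r => simp [h0, keys] at hT
  have so : (keys T₀).Pairwise (· < ·) := h0 ▸ List.pairwise_lt_range'
  have mem : ∀ v ∈ keys T₀, (0 : ℤ) < v ∧ (v : ℤ) < n + 1 := fun v hv => by
    rw [h0, List.mem_range'_1] at hv
    omega
  have f : MP_3ecc11_lc.Full 0 (n + 1) (cv T₀) := MP_3ecc11_lc.full_of _ _ _ (by omega)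
    (by
      rw [inord_cv, List.pairwise_map]
      exact so.imp fun h => by exact_mod_cast h)
    fun v => by
      rw [inord_cv, List.mem_map]
      refine ⟨fun ⟨w, w1, w2⟩ => w2 ▸ mem w w1, fun h => ⟨v.toNat, ?_, by omega⟩⟩
      rw [h0, List.mem_range'_1]
      omega
  have lm : Lm (n + 1) ⟨_, _⟩ := ⟨f.lam.pl, f.lam.l1, f.lam.l2⟩
  have h1 := run_le hg _ lm (inv_init _ _ T₀ 0 (n + 1) f fun _ _ _ => ⟨rfl, rfl⟩) so
    fun z hz => have := hT.subset ((mem_preorder z T).1 hz); ⟨this, mem z this⟩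
  have h2 := hC b (n + 1) (cv T) _
    (bst_cv T 0 (n + 1) (by omega) (so.sublist hT) fun v hv => mem v (hT.subset hv)) lm
  rw [preord_cv, show ((n : ℤ) + 1).toNat = n + 1 by omega] at h2
  nlinarith

end Pool.Agent.Lib.GR7
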