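import Pool.Agent.Lib.GR7.PPart

set_option autoImplicit false
set_option linter.unusedVariables false

/-! The mirror image of the greedy game. -/

namespace Pool.Agent.Lib.GR7

open Pool.Agent.Lib.MP_3ecc11_lc Pool.Agent.Lib.TV19 Finset

def nf (N : ℤ) (f : ℤ → ℤ) (v : ℤ) : ℤ := N - f (N - v)

theorem anc_nf {N : ℤ} {a b : ℤ → ℤ} {t v : ℤ} :
    Anc (nf N b) (nf N a) t v ↔ Anc a b (N - t) (N - v) := by
  unfold Anc nf
  omega

theorem lam_nf {N : ℤ} {a b : ℤ → ℤ} (h : Lam 0 N a b) : Lam 0 N (nf N b) (nf N a) := by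
  refine ⟨fun v v1 v2 => ?_, fun v w v1 v2 w1 w2 => ?_, fun v w v1 v2 w1 w2 => ?_,
    fun v v1 v2 w => ?_, fun v v1 v2 w => ?_⟩
  · have := h.pl (N - v) (by omega) (by omega)
    unfold nf
    omega
  · unfold nf at *
    have := h.l2 (N - v) (N - w) (by omega) (by omega) (by omega) (by omega)
    omega
  · unfold nf at *
    have := h.l1 (N - v) (N - w) (by omega) (by omega) (by omega) (by omega)
    omega
  · unfold nf at *
    have := h.l4 (N - v) (by omega) (by omega) (by omega)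
    rw [sub_sub_cancel]
    omega
  · unfold nf at *
    have := h.l3 (N - v) (by omega) (by omega) (by omega)
    rw [sub_sub_cancel]
    omega

theorem ball_nf {N : ℤ} {d : ℤ → ℤ → ℕ} {u v : ℤ} {k : ℕ} :
    v ∈ TV.ball 0 N (fun u v => d (N - u) (N - v)) u k ↔ N - v ∈ TV.ball 0 N d (N - u) k := by
  rw [TV.mem_ball, TV.mem_ball]
  omega

theorem ball_card {N : ℤ} {d : ℤ → ℤ → ℕ} {u : ℤ} {k : ℕ} :
    (TV.ball 0 N (fun u v => d (N - u) (N - v)) u k).card = (TV.ball 0 N d (N - u) k).card :=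
  card_nbij' (fun v => N - v) (fun v => N - v) (fun v hv => ball_nf.1 hv)
    (fun v hv => ball_nf.2 (by rwa [sub_sub_cancel])) (fun v _ => sub_sub_cancel _ _)
    (fun v _ => sub_sub_cancel _ _)

theorem hier_nf {N : ℤ} {a b : ℤ → ℤ} {d : ℤ → ℤ → ℕ} {z : ℤ → ℤ} (T : Lam 0 N a b)
    (H : TV.Hier 0 N a b d z) :
    TV.Hier 0 N (nf N b) (nf N a) (fun u v => d (N - u) (N - v)) (nf N z) := by
  refine ⟨fun u v u1 u2 v1 v2 => ?_, fun u v u1 u2 v1 v2 => ?_, fun u v w u1 u2 v1 v2 w1 w2 => ?_,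
    fun u v w u1 u2 v1 v2 w1 w2 => ?_, fun u v w u1 u2 h1 h2 => ?_, fun u k u1 u2 => ?_,
    fun u v u1 u2 v1 v2 => ?_, fun u k u1 u2 => ?_, fun u k u1 u2 => ?_, fun v v1 v2 => ?_,
    fun t w e t1 t2 h1 n1 h2 n2 hd => ?_, fun t u v t1 t2 h1 h2 uv n1 n2 => ?_,
    fun u v t y u1 u2 v1 v2 ne ht h hd => ?_⟩
  · have := H.d0 (N - u) (N - v) (by omega) (by omega) (by omega) (by omega)
    omega
  · exact H.sym _ _ (by omega) (by omega) (by omega) (by omega)
  · exact H.d1 _ _ _ (by omega) (by omega) (by omega) (by omega) (by omega) (by omega)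
  · exact H.d2 _ _ _ (by omega) (by omega) (by omega) (by omega) (by omega) (by omega)
  · exact H.d3 _ _ _ (by omega) (by omega) (anc_nf.1 h1) (anc_nf.1 h2)
  · rw [ball_card]
    exact H.d4 _ _ (by omega) (by omega)
  · rw [ball_card]
    exact H.d5 _ _ (by omega) (by omega) (by omega) (by omega)
  · obtain ⟨m, m1, m2⟩ := H.d6 (N - u) k (by omega) (by omega)
    refine ⟨N - m, ball_nf.2 (by rwa [sub_sub_cancel]), fun v hv => anc_nf.2 ?_⟩
    rw [sub_sub_cancel]
    exact m2 _ (ball_nf.1 hv)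
  · obtain ⟨l1, l2, l3, l4, a1, a2, a3, a4⟩ := H.d7 (N - u) k (by omega) (by omega)
    refine ⟨N - l4, N - l3, N - l2, N - l1, by omega, by omega, by omega, fun v => ?_⟩
    rw [ball_nf, a4]
    omega
  · rw [anc_nf]
    unfold nf
    rw [sub_sub_cancel]
    exact H.z1 _ (by omega) (by omega)
  · have h1' := anc_nf.1 h1
    have h2' := anc_nf.1 h2
    have k := H.z2 (N - t) (N - w) (N - e) (by omega) (by omega) h1' (by omega) h2' (by omega) hd
    have kw := anc_key T (t := N - t) (by omega) (by omega) h1'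
    have s0 := (H.d0 _ _ kw.1 kw.2 kw.1 kw.2).2 rfl
    have s1 := H.sym (N - w) (N - t) kw.1 kw.2 (by omega) (by omega)
    obtain ⟨h, a1, a2, a3, a4⟩ := H.hole (N - w) (N - t) (N - w) (N - e) kw.1 kw.2 (by omega)
      (by omega) (by omega) (TV.mem_ball.2 ⟨kw.1, kw.2, by omega⟩) h2' (by omega)
    have a5 := (a4 (N - w) (N - e) (TV.mem_ball.2 ⟨kw.1, kw.2, by omega⟩) h2' (by omega)).2.2
    have a6 := a3 _ (H.z1 h a1 a2)
    have a7 : z (N - w) ≠ N - w := fun x => by
      rw [← a5, x] at a6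
      omega
    unfold nf
    omega
  · have := H.z3 (N - t) (N - v) (N - u) (by omega) (by omega) (anc_nf.1 h2) (anc_nf.1 h1)
      (by omega) (by omega) (by omega)
    unfold nf
    exact ⟨fun k => this.2 (by omega), fun k => this.1 (by omega)⟩
  · obtain ⟨g, a1, a2, a3, a4⟩ := H.hole (N - u) (N - v) (N - t) (N - y) (by omega) (by omega)
      (by omega) (by omega) (by omega) (ball_nf.1 ht) (anc_nf.1 h) hd
    refine ⟨N - g, by omega, by omega, fun y' hy => a3 _ ?_, fun t' y' b1 b2 b3 => ?_⟩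
    · have := anc_nf.1 hy
      rwa [sub_sub_cancel] at this
    · have := a4 _ _ (ball_nf.1 b1) (anc_nf.1 b2) b3
      rw [anc_nf, anc_nf]
      unfold nf
      rw [sub_sub_cancel, this.2.2]
      exact ⟨this.1, this.2.1, rfl⟩

namespace Game

/-- the mirror image -/
def mir (G : Game) : Game where
  N := G.N
  a := nf G.N G.b
  b := nf G.N G.a
  P t v := G.N - G.Q (G.N - t) (G.N - v)
  Q t v := G.N - G.P (G.N - t) (G.N - v)
  P' t v := G.N - G.Q' (G.N - t) (G.N - v)
  Q' t v := G.N - G.P' (G.N - t) (G.N - v)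
  top u v := G.N - G.top (G.N - v) (G.N - u)
  T := lam_nf G.T
  pl t v t1 t2 h := by
    have := G.pl _ _ (by omega) (by omega) (anc_nf.1 h)
    omega
  l1 t v w t1 t2 h1 h2 w1 w2 := by
    have := G.l2 _ _ _ (by omega) (by omega) (anc_nf.1 h1) (anc_nf.1 h2)
    omega
  l2 t v w t1 t2 h1 h2 w1 w2 := by
    have := G.l1 _ _ _ (by omega) (by omega) (anc_nf.1 h1) (anc_nf.1 h2)
    omega
  un t v t1 t2 h ne n := by
    have := G.un _ _ (by omega) (by omega) (anc_nf.1 h) (by omega) (by omega)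
    omega
  p1 t v t1 t2 h ne a1 a2 := by
    have := G.q1 _ _ (by omega) (by omega) (anc_nf.1 h) (by omega) (by omega) (by omega)
    unfold nf
    rw [sub_sub_cancel]
    omega
  p2 t v w t1 t2 h1 h2 n1 n2 a1 a2 a3 a4 o s := by
    have := G.q2 _ _ _ (by omega) (by omega) (anc_nf.1 h1) (anc_nf.1 h2) (by omega) (by omega)
      (by omega) (by omega) (by omega) (by omega) (by omega) (by omega)
    omega
  q1 t v t1 t2 h ne a1 a2 := by
    have := G.p1 _ _ (by omega) (by omega) (anc_nf.1 h) (by omega) (by omega) (by omega)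
    unfold nf
    rw [sub_sub_cancel]
    omega
  q2 t v w t1 t2 h1 h2 n1 n2 a1 a2 a3 a4 o s := by
    have := G.p2 _ _ _ (by omega) (by omega) (anc_nf.1 h1) (anc_nf.1 h2) (by omega) (by omega)
      (by omega) (by omega) (by omega) (by omega) (by omega) (by omega)
    omega
  ch t u v t1 t2 u1 u2 c h := by
    have := G.ch (G.N - t) (G.N - u) _ (by omega) (by omega) (by omega) (by omega)
      (by unfold Child nf at *; omega) (anc_nf.1 h)
    omega
  tp u v u1 uv v2 := by
    have := G.tp (G.N - v) (G.N - u) (by omega) (by omega) (by omega)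
    unfold nf
    rw [sub_sub_cancel]
    omega

variable {G : Game} {d : ℤ → ℤ → ℕ} {x : ℤ × ℤ}

/-- the mirror image of a pair -/
def mp (G : Game) (x : ℤ × ℤ) : ℤ × ℤ := (G.N - x.1, G.N - x.2)

theorem key_mir {v : ℤ} : G.mir.Key v ↔ G.Key (G.N - v) := by
  change 0 < v ∧ v < G.N ↔ _
  unfold Key
  omega

theorem tch_mir {t v : ℤ} : G.mir.Tch t v ↔ G.Tch (G.N - t) (G.N - v) := by
  change Anc (nf G.N G.b) (nf G.N G.a) t v ∧ v ≠ t ∧ G.N - G.Q (G.N - t) (G.N - v) < t ∧
    t < G.N - G.P (G.N - t) (G.N - v) ↔ _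
  rw [anc_nf]
  unfold Tch
  refine and_congr Iff.rfl ?_
  omega

theorem lo_mir : G.mir.lo x = G.N - G.hi (G.mp x) := rfl
theorem hi_mir : G.mir.hi x = G.N - G.lo (G.mp x) := rfl

theorem link_mir : G.mir.IsLink x ↔ G.IsLink (G.mp x) := by
  unfold IsLink
  rw [key_mir, tch_mir, lo_mir, hi_mir]
  refine and_congr Iff.rfl (and_congr Iff.rfl ?_)
  change (_ ∧ G.N - G.b (G.N - x.1) < _ ∧ _) ∨ (_ ∧ _ ∧ _ < G.N - G.a (G.N - x.1)) ↔ _
  simp only [mp]
  omega

theorem w_mir : G.mir.w x = G.N - G.w (G.mp x) := by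
  unfold w
  rw [lo_mir, hi_mir]
  change G.N - G.top _ _ = _
  congr 2 <;> omega

theorem e_mir : G.mir.e x = G.N - G.e' (G.mp x) := by
  unfold e e'
  rw [hi_mir]
  change G.N - G.top _ _ = _
  congr 2
  omega

theorem e'_mir : G.mir.e' x = G.N - G.e (G.mp x) := by
  unfold e e'
  rw [lo_mir]
  change G.N - G.top _ _ = _
  congr 2
  omega

theorem left_mir : G.mir.Left x ↔ G.Right (G.mp x) := by
  unfold Left Right
  rw [link_mir, w_mir]
  refine and_congr Iff.rfl ?_
  simp only [mp]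
  omega

theorem right_mir : G.mir.Right x ↔ G.Left (G.mp x) := by
  unfold Left Right
  rw [link_mir, w_mir]
  refine and_congr Iff.rfl ?_
  simp only [mp]
  omega

/-- the mirror image of the distance -/
def md (G : Game) (d : ℤ → ℤ → ℕ) : ℤ → ℤ → ℕ := fun u v => d (G.N - u) (G.N - v)

theorem card_mir {p q : ℤ × ℤ → Prop} (h : ∀ x, p x ↔ q (G.mp x)) :
    (G.mir.S p).card = (G.S q).card := by
  have inv : ∀ x, G.mp (G.mp x) = x := fun x => by simp [mp]
  refine card_nbij' G.mp G.mp (fun x hx => ?_) (fun x hx => ?_) (fun x _ => inv x) fun x _ => inv x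
  · rw [mem_coe, mem_S, key_mir, key_mir, h] at hx
    exact mem_coe.2 (mem_S.2 hx)
  · rw [mem_coe, mem_S] at hx
    rw [mem_coe, mem_S, key_mir, key_mir, h, inv]
    simpa [mp] using hx

theorem PL_mir : (G.mir.S (G.mir.PL (G.md d))).card = (G.S (G.PR d)).card :=
  card_mir fun x => by
    unfold PL PR md
    rw [left_mir, w_mir, e_mir, sub_sub_cancel, sub_sub_cancel]
    rfl

theorem PR_mir : (G.mir.S (G.mir.PR (G.md d))).card = (G.S (G.PL d)).card :=
  card_mir fun x => by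
    unfold PL PR md
    rw [right_mir, w_mir, e'_mir, sub_sub_cancel, sub_sub_cancel]
    rfl

theorem FL_mir : (G.mir.S (G.mir.FL (G.md d))).card = (G.S (G.FR d)).card :=
  card_mir fun x => by
    unfold FL FR md
    rw [left_mir, w_mir, e_mir, sub_sub_cancel, sub_sub_cancel]
    rfl

theorem NL_mir : (G.mir.S G.mir.NL).card = (G.S G.NL).card :=
  card_mir fun x => by
    unfold NL
    rw [key_mir, tch_mir, link_mir]
    rfl

/-- all touches -/
def TT (G : Game) (x : ℤ × ℤ) : Prop := G.Tch x.1 x.2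

theorem TT_mir : (G.mir.S G.mir.TT).card = (G.S G.TT).card :=
  card_mir fun x => tch_mir

end Game

end Pool.Agent.Lib.GR7
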