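import Pool.Agent.Lib.TV.PA
import Pool.Agent.Lib.TV.PG3
import Pool.Agent.Lib.TV.IF
import Pool.Agent.Lib.TV.WC
import Pool.Agent.Lib.TV.SUM
import Pool.Agent.Lib.TV.PC1
import Pool.Agent.Lib.TV.PC2
import Pool.Agent.Lib.TV.PC3
import Pool.Agent.Lib.TV.PC4
import Pool.Agent.Lib.TV.PC7
import Pool.Agent.Lib.TV.PCA
import Pool.Agent.Lib.TV.PCB
import Pool.Agent.Lib.TV.PCC
import Pool.Agent.Lib.TV.PCD
import Pool.Agent.Lib.TV.PRI

set_option autoImplicit false
set_option linter.unusedVariables false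

/-! The last block of the abstract bound, and the abstract bound itself. -/

namespace Pool.Agent.Lib.GR7

open Pool.Agent.Lib.TV Finset

theorem lt_cmp {ι : Type} {M : PS ι} (hM : M.OK) {p q u : ι} (hp : p ∈ M.X) (hq : q ∈ M.X)
    (hu : u ∈ M.X) (k1 : M.k p = M.k u) (k2 : M.k q = M.k u)
    (d1 : M.d (M.t p) (M.t u) ≤ M.k u ∨ M.d (M.t u) (M.t p) ≤ M.k u)
    (d2 : M.d (M.t q) (M.t u) ≤ M.k u ∨ M.d (M.t u) (M.t q) ≤ M.k u) :
    p = q ∨ M.Lt p q ∨ M.Lt q p := by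
  have h1 := hM.toOK1
  have s1 := h1.sym _ _ (h1.kt p hp) (h1.kt u hu)
  have s2 := h1.sym _ _ (h1.kt q hq) (h1.kt u hu)
  have s3 := h1.sym _ _ (h1.kt p hp) (h1.kt q hq)
  have u1 := h1.ult _ _ _ (h1.kt p hp) (h1.kt u hu) (h1.kt q hq)
  rcases hM.g2 p hp q hq (by omega) (by omega) with e | e | e
  · exact Or.inl e
  · exact Or.inr (Or.inl ⟨hp, hq, by omega, by omega, e⟩)
  · exact Or.inr (Or.inr ⟨hq, hp, by omega, by omega, e⟩)

theorem rise_or {ι : Type} {M : PS ι} (hM : M.OK) {x p : ι} (hx : M.Rise x) (l : M.Lt x p)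
    (no : ∀ y ∈ M.LR x, ¬ M.Lt y p) : M.Rise p ∨ M.c p = M.c x := by
  classical
  have h1 := hM.toOK1
  by_cases r : M.Rise p
  · exact Or.inl r
  right
  have : ∃ y, M.Lt y p ∧ M.c y = M.c p := by
    by_contra hn
    exact r ⟨l.2.1, fun y hy e => hn ⟨y, hy, e⟩⟩
  obtain ⟨y0, hy0⟩ := this
  obtain ⟨y, hy, m⟩ := exists_max_image (M.X.filter fun y => M.Lt y p ∧ M.c y = M.c p)
    (fun y => (M.Rn y).card) ⟨y0, mem_filter.2 ⟨hy0.1.1, hy0⟩⟩
  obtain ⟨y1, y2, y3⟩ := mem_filter.1 hy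
  have ry : M.Rise y := ⟨y1, fun u hu e => by
    have := m u (mem_filter.2 ⟨hu.1, h1.lt_trans hu y2, by omega⟩)
    have := pg3_lt h1 hu e
    omega⟩
  have a1 := l.2.2.1
  have a2 := l.2.2.2.1
  have a3 := y2.2.2.1
  have a4 := y2.2.2.2.1
  rcases lt_cmp hM l.1 y1 l.2.1 a1 a3 (Or.inl (by omega)) (Or.inl (by omega)) with e | e | e
  · rw [e, y3]
  · exact absurd y2 (no y (PS.mem_LR.2 ⟨e, ry⟩))
  · have := (hM.g3 _ _ e).1
    have := (hM.g3 _ _ l).1
    omega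

theorem PG4_holds : St_PG4 := by
  classical
  intro ι M hM r D Z hZ
  have h1 := hM.toOK1
  have hs : Z ⊆ (M.X.filter fun x => M.Rise x ∧ ¬ M.Nice r x).biUnion fun x =>
      Z.filter fun p => M.Lt x p ∧ ∀ y ∈ M.LR x, ¬ M.Lt y p := by
    intro p hp
    obtain ⟨-, -, x, a1, a2, a3⟩ := hZ p hp
    exact mem_biUnion.2 ⟨x, mem_filter.2 ⟨a1.1, a1, a2⟩, mem_filter.2 ⟨hp, a3⟩⟩
  refine le_trans (card_le_card hs) (le_trans card_biUnion_le ?_)
  unfold PS.NN
  rw [mul_sum]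
  refine sum_le_sum fun x hx => le_trans ?_ (Nat.le_mul_of_pos_right _ (by positivity))
  obtain ⟨-, rx, -⟩ := mem_filter.1 hx
  rw [← card_range (D + 1)]
  refine card_le_card_of_injOn (fun p => if M.Rise p then D else (M.Rn p).card)
    (fun p hp => ?_) fun p hp q hq e => ?_
  · have := (hZ p (mem_filter.1 (mem_coe.1 hp)).1).2.1
    simp only [coe_range, Set.mem_Iio]
    split_ifs <;> omega
  · obtain ⟨p1, p2, p3⟩ := mem_filter.1 (mem_coe.1 hp)
    obtain ⟨q1, q2, q3⟩ := mem_filter.1 (mem_coe.1 hq)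
    have p4 := (hZ p p1).2.1
    have q4 := (hZ q q1).2.1
    have c := lt_cmp hM p2.2.1 q2.2.1 p2.1 p2.2.2.1.symm q2.2.2.1.symm (Or.inr p2.2.2.2.1)
      (Or.inr q2.2.2.2.1)
    simp only at e
    by_cases rp : M.Rise p <;> by_cases rq : M.Rise q <;> simp only [rp, rq, if_true, if_false] at e
    · rcases c with c | c | c
      · exact c
      · exact absurd c (q3 p (PS.mem_LR.2 ⟨p2, rp⟩))
      · exact absurd c (p3 q (PS.mem_LR.2 ⟨q2, rq⟩))
    · omega
    · omega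
    · have e1 := (rise_or hM rx p2 p3).resolve_left rp
      have e2 := (rise_or hM rx q2 q3).resolve_left rq
      rcases c with c | c | c
      · exact c
      · have := pg3_lt h1 c (by omega)
        omega
      · have := pg3_lt h1 c (by omega)
        omega

theorem PA_all : St_PA :=
  PA_holds PC1_holds (PC2_holds IF_holds SUM_holds) (PC3_holds IF_holds SUM_holds)
    (PC4_holds (WC_holds SUM_holds)) (PCA_holds IF_holds (WC_holds SUM_holds)) (PCB_holds IF_holds)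
    (PCC_holds IF_holds (WC_holds SUM_holds)) (PCD_holds IF_holds) (PG3_holds (WC_holds SUM_holds))
    PG4_holds PRI_holds PC7_holds

end Pool.Agent.Lib.GR7
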