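import Pool.Agent.Lib.GR7.FPart

set_option autoImplicit false
set_option linter.unusedVariables false

/-! The P-links of left type in the greedy game. -/

namespace Pool.Agent.Lib.GR7

open Pool.Agent.Lib.MP_3ecc11_lc Pool.Agent.Lib.TV19 Finset

namespace Game

variable {G : Game} {d : ℤ → ℤ → ℕ} {z : ℤ → ℤ} {x y : ℤ × ℤ}

/-- rising links -/
def Ris (G : Game) (d : ℤ → ℤ → ℕ) (z : ℤ → ℤ) (x : ℤ × ℤ) : Prop := G.PL d x ∧ G.e x ≤ z x.1

theorem zmono (H : TV.Hier 0 G.N G.a G.b d z) {t u v : ℤ} (kt : G.Key t) (hu : G.An t u)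
    (hv : G.An t v) (nu : u ≠ t) (nv : v ≠ t) (uv : u ≤ v) (vz : v ≤ z t) : d t u ≤ d t v :=
  (H.z3 t u v kt.1 kt.2 hu hv uv nu nv).1 vz

theorem Left.ne (hx : G.Left x) : G.w x < G.e x ∧ G.e x ≠ x.1 := by
  have b := hx.1.basic
  have g := hx.1.geo
  have l := hx.2
  omega

theorem PL.c (H : TV.Hier 0 G.N G.a G.b d z) (hx : G.PL d x) :
    d x.1 (G.e x) = d (G.w x) (G.e x) ∧ 0 < d x.1 (G.w x) ∧ z x.1 = z (G.w x) ∧
      G.w x < z x.1 ∧ G.An (G.w x) (z x.1) := by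
  have a := hx.1.1.anc
  have k := hx.1.1.1
  have n := hx.1.ne
  have k1 := d3 H k a.1 a.2.2.1
  have k2 := ul H k a.2.2.2.2.2.1 a.2.2.2.2.2.2.1
  have k3 := hx.2
  have k4 := (H.d0 _ _ k.1 k.2 a.2.2.2.2.2.1.1 a.2.2.2.2.2.1.2).1
  have k5 := H.z2 _ _ _ k.1 k.2 a.1 a.2.1 a.2.2.1 (by omega) k3
  have k6 := a.2.1
  refine ⟨by omega, by omega, k5.1, by omega, ?_⟩
  rw [k5.1]
  exact H.z1 _ a.2.2.2.2.2.1.1 a.2.2.2.2.2.1.2

/-- times of one window are comparable; the lower one is above the winner of the upper one -/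
theorem win_cmp (H : TV.Hier 0 G.N G.a G.b d z) (hx : G.PL d x) (hy : G.PL d y)
    (hk : d x.1 (G.w x) = d y.1 (G.w y)) (hd : d x.1 y.1 ≤ d x.1 (G.w x)) :
    d x.1 y.1 < d x.1 (G.w x) ∧ G.An y.1 (G.w x) ∧ y.1 ≠ G.w x ∧ G.An x.1 (G.w y) := by
  have ax := hx.1.1.anc
  have ay := hy.1.1.anc
  have kx := hx.1.1.1
  have ky := hy.1.1.1
  have wx := ax.2.2.2.2.2.1
  have wy := ay.2.2.2.2.2.1
  have p := (hx.c H).2.1
  obtain ⟨h, kh, b1, b2⟩ := btop H wx p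
  obtain ⟨h', kh', b1', b2'⟩ := btop H wy p
  have s1 := slf H wx
  have s2 := slf H wy
  have y1 := sy H wx kx
  have y2 := sy H wy ky
  have y3 := sy H wx ky
  have y4 := sy H wy kx
  have y5 := sy H wx wy
  have y6 := sy H kx ky
  have m1 := b2 x.1 _ kx ax.1 (by omega) (by omega)
  have m2 := b2' y.1 _ ky ay.1 (by omega) (by omega)
  have u1 := ul H wx kx ky
  have u2 := ul H wx ky wy
  have u3 := ul H wy wx ky
  have u4 := ul H wy wx kx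
  have u5 := ul H wx wy kx
  have u6 := ul H ky wx wy
  have c : d (G.w x) (G.w y) < d x.1 (G.w x) := by
    by_contra c
    have e1 := H.d2 _ _ _ wx.1 wx.2 kx.1 kx.2 wy.1 wy.2 (by omega) (by omega)
    have u7 := ul H ky kx wy
    have e2 := H.d2 _ _ _ kx.1 kx.2 wx.1 wx.2 ky.1 ky.2 (by omega) (by omega)
    have q1 := ky.trans m2.1 (b1' x.1 kx (by omega))
    have q2 := kx.trans m1.1 (b1 y.1 ky (by omega))
    have := kx.antisymm q2 q1
    have s3 := slf H kx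
    have e5 : d x.1 y.1 = d x.1 x.1 := by rw [← this]
    omega
  have m3 := b2 y.1 _ ky ay.1 c (by omega)
  have m4 := b2' x.1 _ kx ax.1 (by omega) (by omega)
  have e3 := H.d2 _ _ _ wx.1 wx.2 kx.1 kx.2 ky.1 ky.2 (by omega) (by omega)
  exact ⟨by omega, ky.trans m3.1 (b1 _ wx (by omega)), fun e => m3.2 (e ▸ b1 _ wx (by omega)),
    kx.trans m4.1 (b1' _ wy (by omega))⟩

/-- a time between the time of a link and its winner -/
theorem mid (H : TV.Hier 0 G.N G.a G.b d z) (hx : G.PL d x) {s : ℤ} (h1 : G.An x.1 s)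
    (h2 : G.An s (G.w x)) (n2 : s ≠ G.w x) (hd : d x.1 s < d x.1 (G.w x)) :
    z s = z x.1 ∧ d s (G.w x) = d x.1 (G.w x) ∧ d s (G.e x) = d x.1 (G.e x) ∧
      G.An s (G.e x) ∧ G.e x ≠ s := by
  have ax := hx.1.1.anc
  have kx := hx.1.1.1
  have ks := kx.of h1
  have wx := ax.2.2.2.2.2.1
  have ex := ax.2.2.2.2.2.2.1
  have c := hx.c H
  have f := hx.2
  have n := hx.1.ne
  have se := ks.trans h2 ax.2.2.1
  have k1 := d3 H kx h1 h2
  have k2 := d3 H kx h1 se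
  have u1 := ul H kx ks wx
  have u2 := ul H kx ks ex
  have k5 := H.z2 _ _ _ ks.1 ks.2 h2 n2.symm ax.2.2.1 (by omega) (by omega)
  refine ⟨by omega, by omega, by omega, se, fun e => n2 (ks.antisymm h2 (e ▸ ax.2.2.1))⟩

theorem win_lt (H : TV.Hier 0 G.N G.a G.b d z) (hx : G.Ris d z x) (hy : G.Ris d z y)
    (hk : d x.1 (G.w x) = d y.1 (G.w y)) (hd : d x.1 y.1 ≤ d x.1 (G.w x)) (o : G.An x.1 y.1)
    (ne : x.1 ≠ y.1) : G.e x < G.e y ∧ z y.1 = z x.1 ∧ d x.1 (G.e y) = d y.1 (G.e y) ∧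
      d x.1 (G.e x) ≤ d y.1 (G.e y) := by
  obtain ⟨w1, w2, w3, -⟩ := win_cmp H hx.1 hy.1 hk hd
  obtain ⟨m1, m2, m3, m4, m5⟩ := mid H hx.1 o w2 w3 w1
  have ay := hy.1.1.1.anc
  have kx := hx.1.1.1.1
  have ky := hy.1.1.1.1
  have ey := ay.2.2.2.2.2.2.1
  have cx := hx.1.c H
  have cy := hy.1.c H
  have fy := hy.1.2
  have nx := hx.1.1.ne
  have ny := hy.1.1.ne
  have r := hy.2
  have lt : G.e x < G.e y := by
    rcases (s3 hx.1.1 hy.1.1 o ne.symm w2 w3).1 with k | k | k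
    · exact k
    · have := zmono H ky ay.2.2.2.2.2.2.2.2.1 w2 ny.2 w3.symm k.le (by omega)
      omega
    · have := d3 H ky ay.2.2.2.2.2.2.2.2.1 k
      omega
  have k1 := zmono H ky m4 ay.2.2.2.2.2.2.2.2.1 m5 ny.2 lt.le r
  have k2 := d3 H kx o ay.2.2.2.2.2.2.2.2.1
  have k3 := ul H kx ky ey
  exact ⟨lt, m1, by omega, by omega⟩

/-- the two-sided lemma for rising links -/
theorem s4r (H : TV.Hier 0 G.N G.a G.b d z) {u v : ℤ × ℤ} (hy : G.Ris d z y) (hu : G.PL d u)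
    (hv : G.IsLink v) (u1 : G.An u.1 y.1) (u2 : y.1 ≠ u.1) (v1 : G.An v.1 y.1) (v2 : y.1 ≠ v.1)
    (a1 : G.An y.1 (G.w u)) (a2 : y.1 ≠ G.w u) (zu : z y.1 = z u.1) (e1 : G.e u ≤ G.e y)
    (e2 : G.e y < G.e v) (e3 : G.e v ≤ z y.1) :
    ∃ τ, (G.An u.1 τ ∧ G.An τ v.1 ∨ G.An v.1 τ ∧ G.An τ u.1) ∧ G.e y ∈ G.A τ := by
  have ky := hy.1.1.1.1
  have ay := hy.1.1.1.anc
  have au := hu.1.1.anc
  have cy := (hy.1.c H).2.2.2.2
  have cu := (hu.c H).2.2.2.2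
  have nu := hu.1.ne
  have k1 := ky.sub ay.1
  have k2 := ky.sub a1
  have k3 := ay.2.1
  have k4 := ay.2.2.1
  refine s4 hy.1.1.1 hu.1.1 hv u1 u2 v1 v2 (ky.trans a1 au.2.2.1) ?_ ?_ e1 e2
  · unfold An Anc at *
    omega
  · unfold An Anc at *
    omega

/-- the abstract system of the rising links -/
noncomputable def ps (G : Game) (d : ℤ → ℤ → ℕ) (z : ℤ → ℤ) : TV.PS (ℤ × ℤ) :=
  ⟨0, G.N, G.a, G.b, d, G.A, G.S (G.Ris d z), fun x => x.1, fun x => d x.1 (G.w x),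
    fun x => d x.1 (G.e x), G.e⟩

theorem ps_mem (hx : x ∈ (ps G d z).X) : G.Ris d z x := (mem_S.1 hx).2

theorem ps_lt (h : (ps G d z).Lt x y) : G.Ris d z x ∧ G.Ris d z y ∧
    d x.1 (G.w x) = d y.1 (G.w y) ∧ d x.1 y.1 ≤ d x.1 (G.w x) ∧ G.An x.1 y.1 ∧ x.1 ≠ y.1 :=
  ⟨ps_mem h.1, ps_mem h.2.1, h.2.2.1, h.2.2.2.1, h.2.2.2.2.1, h.2.2.2.2.2⟩

theorem ps_ok1 (H : TV.Hier 0 G.N G.a G.b d z) : (ps G d z).OK1 := by
  refine ⟨fun u k => Key.refl k, fun u v k h => Key.of k h, fun u v w k h g => Key.trans k h g,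
    fun u v k h g => Key.antisymm k h g, fun u v w k k' h g => Key.total k k' h g,
    fun u v k h => ?_, fun u k => slf H k, fun u v k k' => sy H k k',
    fun u v w k k' k'' => ul H k k' k'', fun u v w k h g => d3 H k h g,
    fun u j k => H.d4 u j k.1 k.2, fun x hx => (ps_mem hx).1.1.1.1, fun x hx => ?_⟩
  · have k1 := Key.sub (G := G) k h.1
    have k2 := Key.bd (G := G) k
    have k3 := h.2
    change G.b v - G.a v < G.b u - G.a u
    omega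
  · have l := (ps_mem hx).1.1.1
    exact H.d5 _ _ l.1.1 l.1.2 l.anc.2.2.2.2.2.1.1 l.anc.2.2.2.2.2.1.2

theorem g1 (H : TV.Hier 0 G.N G.a G.b d z) (hx : G.Ris d z x) (hy : G.Ris d z y) (t : x.1 = y.1)
    (h : G.e x ≤ G.w y) : d x.1 (G.e x) ≤ d y.1 (G.w y) := by
  have ax := hx.1.1.1.anc
  have ay := hy.1.1.1.anc
  have c := hy.1.c H
  rw [t] at ax ⊢
  exact zmono H hy.1.1.1.1 ax.2.2.2.2.2.2.2.2.1 ay.1 (t ▸ hx.1.1.ne.2) ay.2.1 h c.2.2.2.1.le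

theorem ps_ok2 (H : TV.Hier 0 G.N G.a G.b d z) : (ps G d z).OK2 := by
  have g0 : ∀ x, G.PL d x → d x.1 (G.w x) < d x.1 (G.e x) := fun x hx => by
    have := hx.c H
    have := hx.2
    omega
  refine ⟨fun x hx => g0 x (ps_mem hx).1, fun x hx y hy t => ?_, fun x hx y hy hk hd => ?_,
    fun x y h => ?_, fun x y x' y' h h' t e => ?_, fun x y h hh l o1 o2 hk => ?_,
    fun h hh y hy hd hk => ?_⟩
  · by_cases e : x = y
    · exact Or.inl e
    · rcases s2 (ps_mem hx).1.1 (ps_mem hy).1.1 t e with k | k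
      · exact Or.inr (Or.inl (g1 H (ps_mem hx) (ps_mem hy) t k))
      · exact Or.inr (Or.inr (g1 H (ps_mem hy) (ps_mem hx) t.symm k))
  · have rx := ps_mem hx
    have ry := ps_mem hy
    by_cases t : x.1 = y.1
    · left
      by_contra e
      have a1 := g0 x rx.1
      have a2 := g0 y ry.1
      change d x.1 (G.w x) = d y.1 (G.w y) at hk
      rcases s2 rx.1.1 ry.1.1 t e with k | k
      · have := g1 H rx ry t k
        omega
      · have := g1 H ry rx t.symm k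
        omega
    · obtain ⟨-, w2, -, -⟩ := win_cmp H rx.1 ry.1 hk hd
      rcases rx.1.1.1.1.total ry.1.1.1.1 rx.1.1.1.anc.1 w2 with o | o
      · exact Or.inr (Or.inl ⟨o, t⟩)
      · exact Or.inr (Or.inr ⟨o, Ne.symm t⟩)
  · obtain ⟨a1, a2, a3, a4, a5, a6⟩ := ps_lt h
    have := win_lt H a1 a2 a3 a4 a5 a6
    exact ⟨this.2.2.2, this.1.ne⟩
  · obtain ⟨a1, a2, a3, a4, a5, a6⟩ := ps_lt h
    obtain ⟨b1, b2, b3, b4, b5, b6⟩ := ps_lt h'
    have k1 := (win_lt H a1 a2 a3 a4 a5 a6).2.2.1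
    have k2 := (win_lt H b1 b2 b3 b4 b5 b6).2.2.1
    change x.1 = x'.1 at t
    change G.e y = G.e y' at e
    change d y.1 (G.e y) = d y'.1 (G.e y')
    rw [← k1, ← k2, t, e]
  · obtain ⟨a1, a2, a3, a4, a5, a6⟩ := ps_lt l
    have rh := ps_mem hh
    obtain ⟨w1, w2, w3, -⟩ := win_cmp H a1.1 a2.1 a3 a4
    have kx := a1.1.1.1.1
    have kh := rh.1.1.1.1
    have o3 : G.An x.1 h.1 := o1.1
    have o4 : G.An h.1 y.1 := o2
    have o5 := kh.trans o4 w2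
    have o6 : h.1 ≠ G.w x := fun e => w3 ((kh.antisymm o4 (e ▸ w2)).symm.trans e)
    have k1 := d3 H kx o3 o4
    obtain ⟨m1, m2, m3, m4, m5⟩ := mid H a1.1 o3 o5 o6 (by omega)
    have ah := rh.1.1.1.anc
    have ch := rh.1.c H
    have cx := a1.1.c H
    change d x.1 (G.w x) < d h.1 (G.w h) at hk
    change d x.1 (G.e x) ≤ d h.1 (G.w h)
    rcases (s3 a1.1.1 rh.1.1 o3 (Ne.symm o1.2) o5 o6).2 with k | k | k
    · have := zmono H kh m4 ah.1 m5 ah.2.1 k.le ch.2.2.2.1.le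
      omega
    · have := zmono H kh ah.1 o5 ah.2.1 o6.symm k.le (by omega)
      omega
    · have := d3 H kh ah.1 k
      omega
  · have rh := ps_mem hh
    have ry := ps_mem hy
    have ky := ry.1.1.1.1
    have kh := rh.1.1.1.1
    have ay := ry.1.1.1.anc
    have ah := rh.1.1.1.anc
    change d h.1 y.1 ≤ d y.1 (G.w y) at hd
    change d y.1 (G.w y) < d h.1 (G.w h) at hk
    have s := slf H ky
    have y1 := sy H ky kh
    have u := ul H kh ky ah.2.2.2.2.2.1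
    obtain ⟨m, m1, m2, -, m4⟩ := H.hole y.1 (G.w y) y.1 (G.e y) ky.1 ky.2 ay.2.2.2.2.2.1.1
      ay.2.2.2.2.2.1.2 ay.2.1.symm (TV.mem_ball.2 ⟨ky.1, ky.2, by omega⟩) ay.2.2.2.2.2.2.2.2.1
      (g0 y ry.1)
    exact kh.total ky
      (m4 h.1 (G.w h) (TV.mem_ball.2 ⟨kh.1, kh.2, by omega⟩) ah.1 (by omega)).1
      (m4 y.1 (G.e y) (TV.mem_ball.2 ⟨ky.1, ky.2, by omega⟩) ay.2.2.2.2.2.2.2.2.1
        (g0 y ry.1)).1

theorem ps_ok3 (H : TV.Hier 0 G.N G.a G.b d z) : (ps G d z).OK3 := by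
  refine ⟨fun x y x' hx' l t hc => ?_, fun x y0 y h hh l0 l o1 o2 hc => ?_⟩
  · obtain ⟨a1, a2, a3, a4, a5, a6⟩ := ps_lt l
    have r := ps_mem hx'
    obtain ⟨w1, w2, w3, -⟩ := win_cmp H a1.1 a2.1 a3 a4
    obtain ⟨v1, v2, v3, v4⟩ := win_lt H a1 a2 a3 a4 a5 a6
    change x'.1 = x.1 at t
    change d y.1 (G.e y) < d x'.1 (G.e x') at hc
    change G.e y ∈ G.A x.1
    have kx := a1.1.1.1.1
    have r2 := r.2
    have ry := a2.2
    have ay := a2.1.1.1.anc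
    have lt : G.e y < G.e x' := by
      by_contra hn
      have := zmono H kx (t ▸ r.1.1.1.anc.2.2.2.2.2.2.2.2.1)
        (kx.trans a5 ay.2.2.2.2.2.2.2.2.1) (t ▸ r.1.1.ne.2)
        (fun e => a6 (kx.antisymm a5 (e ▸ ay.2.2.2.2.2.2.2.2.1))) (not_lt.1 hn) (by omega)
      rw [t] at hc
      omega
    obtain ⟨τ, t1, t2⟩ := s4r H a2 a1.1 r.1.1.1 a5 a6.symm (t ▸ a5) (t ▸ a6.symm) w2 w3 v2 v1.le
      lt (by rw [t] at r2; omega)
    rw [t] at t1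
    have : x.1 = τ := by
      rcases t1 with k | k <;> exact kx.antisymm k.1 k.2
    exact this ▸ t2
  · obtain ⟨a1, a2, a3, a4, a5, a6⟩ := ps_lt l0
    obtain ⟨-, b2, b3, b4, b5, b6⟩ := ps_lt l
    obtain ⟨-, -, c3, c4, c5, c6⟩ := ps_lt ((ps_ok1 H).lt_trans l0 l)
    have rh := ps_mem hh
    have kx := a1.1.1.1.1
    have kh := rh.1.1.1.1
    have k0 := a2.1.1.1.1
    have ky := b2.1.1.1.1
    have o3 : G.An x.1 h.1 := o1.1
    have o4 : G.An h.1 y0.1 := o2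
    obtain ⟨w1, w2, w3, -⟩ := win_cmp H a1.1 a2.1 a3 a4
    have o5 := kh.trans o4 w2
    have o6 : h.1 ≠ G.w x := fun e => w3 ((kh.antisymm o4 (e ▸ w2)).symm.trans e)
    have k1 := d3 H kx o3 o4
    obtain ⟨m1, -⟩ := mid H a1.1 o3 o5 o6 (by omega)
    obtain ⟨u1, u2, u3, -⟩ := win_cmp H a2.1 b2.1 b3 b4
    obtain ⟨v1, v2, -⟩ := win_lt H a2 b2 b3 b4 b5 b6
    obtain ⟨-, p2, p3, -⟩ := win_lt H a1 b2 c3 c4 c5 c6
    have hy := kh.trans o4 b5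
    have ny : y.1 ≠ h.1 := fun e => b6 (k0.antisymm b5 (e ▸ o4))
    have ay := b2.1.1.1.anc
    have ah := rh.1.1.1.anc
    have ch := rh.1.c H
    have fh := rh.1.2
    have r2 := rh.2
    have ry := b2.2
    change d y.1 (G.e y) < d h.1 (G.w h) at hc
    have he := kh.trans hy ay.2.2.2.2.2.2.2.2.1
    have k2 := d3 H kx o3 he
    have lt : G.e y < G.e h := by
      by_contra hn
      have := zmono H kh ah.2.2.2.2.2.2.2.2.1 he rh.1.1.ne.2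
        (fun e => ny (ky.antisymm (e ▸ ay.2.2.2.2.2.2.2.2.1) hy)) (not_lt.1 hn) (by omega)
      omega
    obtain ⟨τ, t1, t2⟩ := s4r H b2 a2.1 rh.1.1.1 b5 b6.symm hy ny u2 u3 v2 v1.le lt (by omega)
    rcases t1 with k | k
    · exact ⟨τ, kh.trans o4 k.1, (k0.of k.1).trans k.2 o4, t2⟩
    · exact ⟨τ, k.1, k.2, t2⟩

theorem card_PL (hA : TV.St_PA) (R : ℕ) : ∃ C : ℕ, ∀ (G : Game) (d : ℤ → ℤ → ℕ) (z : ℤ → ℤ),
    TV.Hier 0 G.N G.a G.b d z →
    R * (G.S (G.PL d)).card ≤ C * (Ioo 0 G.N).card + ∑ τ ∈ Ioo 0 G.N, (G.A τ).card := by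
  classical
  obtain ⟨C, hC⟩ := hA R
  refine ⟨C + R, fun G d z H => ?_⟩
  have h1 : R * (G.S (G.Ris d z)).card ≤ C * (Ioo 0 G.N).card + ∑ τ ∈ Ioo 0 G.N, (G.A τ).card :=
    hC _ (ps G d z) ⟨ps_ok1 H, ps_ok2 H, ps_ok3 H⟩
  have h2 : (G.S fun x => G.PL d x ∧ z x.1 < G.e x).card ≤ (Ioo 0 G.N).card := by
    refine card_le_card_of_injOn (fun x => x.1) (fun x hx => ?_) fun x hx y hy t => ?_
    · exact mem_coe.2 (mem_Ioo.2 (mem_S.1 (mem_coe.1 hx)).1.1)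
    · obtain ⟨-, px, zx⟩ := mem_S.1 (mem_coe.1 hx)
      obtain ⟨-, py, zy⟩ := mem_S.1 (mem_coe.1 hy)
      by_contra ne
      have c1 := (px.c H).2.2.2.1
      have c2 := (py.c H).2.2.2.1
      have := s2 px.1 py.1 t ne
      simp only at t
      rw [t] at zx c1
      omega
  have hs : G.S (G.PL d) ⊆ G.S (G.Ris d z) ∪ G.S fun x => G.PL d x ∧ z x.1 < G.e x := by
    intro x hx
    simp only [mem_union, mem_S, Ris] at hx ⊢
    by_cases c : G.e x ≤ z x.1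
    · exact Or.inl ⟨hx.1, hx.2, c⟩
    · exact Or.inr ⟨hx.1, hx.2, by omega⟩
  have h3 := Nat.mul_le_mul_left R (le_trans (card_le_card hs) (le_trans (card_union_le _ _)
    (Nat.add_le_add_left h2 _)))
  rw [mul_add] at h3
  rw [add_mul]
  omega

end Game

end Pool.Agent.Lib.GR7
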