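import Pool.Agent.Lib.GR7.Defs
import Pool.Agent.Lib.MP_ce2dd3_lc.Lower

set_option autoImplicit false
set_option linter.unusedVariables false

/-! Rebuilding the top of a tree costs a linear number of rotations. -/

namespace Pool.Agent.Lib.GR7

open Pool.Agent.Lib.MP_ce2dd3_lc BT

theorem fr_in {P : List ℕ} {k : ℕ} (h : k ∈ P) (l r : BT) :
    frontier P (node l k r) = frontier P l ++ .inl k :: frontier P r := by
  rw [MP_ce2dd3_lc.frontier, if_pos h]

theorem fr_out {P : List ℕ} {k : ℕ} (h : k ∉ P) (l r : BT) :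
    frontier P (node l k r) = [.inr (node l k r)] := by
  rw [MP_ce2dd3_lc.frontier, if_neg h]

theorem rot_symm {T T' : BT} (h : Rot T T') : Rot T' T := by
  induction h with
  | right => exact .left _ _ _ _ _
  | left => exact .right _ _ _ _ _
  | inL k r _ ih => exact .inL k r ih
  | inR l k _ ih => exact .inR l k ih

theorem rots_symm {k : ℕ} {T T' : BT} (h : Rots k T T') : Rots k T' T := by
  induction h with
  | refl => exact .refl _
  | step h _ ih =>
    have := ih.trans (.step (rot_symm h) (.refl _))
    rwa [Nat.add_comm] at this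

theorem rots_inR {k : ℕ} {r r' : BT} (h : Rots k r r') (l : BT) (x : ℕ) :
    Rots k (node l x r) (node l x r') := by
  induction h with
  | refl => exact .refl _
  | step h _ ih => exact .step (.inR _ _ h) ih

/-- one step of the spine construction -/
def sp : ℕ ⊕ BT → Option ℕ × BT → Option ℕ × BT
  | .inl j, st => (some j, st.2)
  | .inr s, (some k, R) => (some k, node s k R)
  | .inr s, (none, _) => (none, s)

theorem rots_sp (P : List ℕ) : ∀ (l : BT) (k : ℕ) (R : BT),
    Rots (top P l).length (node l k R) ((frontier P l).foldr sp (some k, R)).2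
  | nil, k, R => by
    rw [top_nil]
    exact .refl _
  | node a j c, k, R => by
    by_cases h : j ∈ P
    · have h1 := rots_inR (rots_sp P c k R) a j
      have h2 := rots_sp P a j ((frontier P c).foldr sp (some k, R)).2
      have h3 := Rots.step (Rot.right a j c k R) (h1.trans h2)
      rw [top_node h]
      simp only [fr_in h, List.foldr_append, List.foldr_cons, List.length_append,
        List.length_cons, sp]
      exact h3
    · rw [top_node' h]
      rw [fr_out h]
      exact .refl _

theorem rots_can (P : List ℕ) : ∀ t : BT, ∃ k ≤ (top P t).length,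
    Rots k t ((frontier P t).foldr sp (none, nil)).2
  | nil => ⟨0, Nat.zero_le _, .refl _⟩
  | node l j r => by
    by_cases h : j ∈ P
    · obtain ⟨k, k1, k2⟩ := rots_can P r
      refine ⟨_, ?_, by
        simp only [fr_in h, List.foldr_append, List.foldr_cons, sp]
        exact (rots_inR k2 l j).trans (rots_sp P l j _)⟩
      rw [top_node h, List.length_append, List.length_cons]
      omega
    · refine ⟨0, Nat.zero_le _, ?_⟩
      rw [fr_out h]
      exact .refl _

theorem top_sub (P : List ℕ) : ∀ t : BT, (top P t).Sublist (keys t)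
  | nil => by simp [top_nil]
  | node l j r => by
    by_cases h : j ∈ P
    · rw [top_node h]
      exact (top_sub P l).append ((top_sub P r).cons_cons j)
    · simp [top_node' h]

theorem rdist_le {P : List ℕ} {t t' : BT} (h : frontier P t' = frontier P t)
    (hs : (keys t).Pairwise (· < ·)) : rdist t t' ≤ 2 * P.length := by
  obtain ⟨k, k1, k2⟩ := rots_can P t
  obtain ⟨m, m1, m2⟩ := rots_can P t'
  rw [h] at m2
  have e : top P t' = top P t := by simp only [top, h]
  have nd : (top P t).Nodup := (hs.sublist (top_sub P t)).imp ne_of_lt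
  have := (List.subperm_of_subset nd fun v hv => mem_of_top hv).length_le
  have := Nat.sInf_le (s := {k | Rots k t t'}) (k2.trans (rots_symm m2))
  rw [e] at m1
  unfold rdist
  omega

theorem frontier_toRoot (P : List ℕ) (x : ℕ) : ∀ T : BT, (keys T).Pairwise (· < ·) → x ∈ keys T →
    (∀ v ∈ path x T, v ∈ P) → x ∈ P ∧ frontier P (toRoot x T) = frontier P T
  | nil, _, h, _ => by simp [keys] at h
  | node l k r, hs, hx, hP => by
    simp only [keys, List.pairwise_append, List.pairwise_cons, List.mem_cons,
      List.mem_append] at hs hx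
    obtain ⟨h1, ⟨h2, h3⟩, h4⟩ := hs
    have hk : k ∈ P := hP k (by simp [path])
    rcases hx with hx | rfl | hx
    · have hlt : x < k := h4 x hx k (Or.inl rfl)
      obtain ⟨a, b, e1, -⟩ := toRoot_spec x l h1 hx
      obtain ⟨i1, i2⟩ := frontier_toRoot P x l h1 hx fun v hv => hP v (by simp [path, hlt, hv])
      rw [e1, fr_in i1] at i2
      refine ⟨i1, ?_⟩
      simp [toRoot, hlt, e1, rotR, fr_in i1, fr_in hk, ← i2]
    · exact ⟨hk, by simp [toRoot]⟩
    · have hlt : k < x := h2 x hx
      obtain ⟨a, b, e1, -⟩ := toRoot_spec x r h3 hx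
      obtain ⟨i1, i2⟩ := frontier_toRoot P x r h3 hx fun v hv =>
        hP v (by simp [path, hlt, hlt.le.not_gt, hv])
      rw [e1, fr_in i1] at i2
      refine ⟨i1, ?_⟩
      simp [toRoot, hlt, hlt.le.not_gt, e1, rotL, fr_in i1, fr_in hk, ← i2]

theorem StepL.fr {σ : List ℕ} {x : ℕ} {T T' : BT} (h : StepL σ x T T')
    (hs : (keys T).Pairwise (· < ·)) (hx : x ∈ keys T) :
    frontier (path x T) T' = frontier (path x T) (toRoot x T) ∧
      frontier (path x T) (toRoot x T) = frontier (path x T) T := by
  obtain ⟨l, r, l', r', e1, rfl, e2, e3, -⟩ := h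
  obtain ⟨i1, i2⟩ := frontier_toRoot (path x T) x T hs hx fun _ h => h
  exact ⟨by rw [e1, fr_in i1, fr_in i1, e2, e3], i2⟩

theorem exists_greedy2 (b : Bool) : ∀ (σ : List ℕ) (T : BT), (keys T).Pairwise (· < ·) →
    (∀ x ∈ σ, x ∈ keys T) → ∃ g, Greedy2 b T σ g
  | [], T, _, _ => ⟨0, .done b T⟩
  | x :: σ, T, hs, hx => by
    cases b with
    | true =>
      obtain ⟨l, r, e1, e2⟩ := toRoot_spec x T hs (hx x (by simp))
      obtain ⟨l', a1, a2⟩ := exists_heap (path x T) (key2 σ (path x T)) _ l le_rfl
      obtain ⟨r', b1, b2⟩ := exists_heap (path x T) (key2 σ (path x T)) _ r le_rfl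
      have ek : keys (node l' x r') = keys T := by
        rw [← e2]; simp [keys, keys_eq_of_frontier a1, keys_eq_of_frontier b1]
      obtain ⟨g, hg⟩ := exists_greedy2 true σ (node l' x r') (ek ▸ hs)
        fun y hy => ek ▸ hx y (by simp [hy])
      exact ⟨_, .lucas ⟨l, r, l', r', e1, rfl, a1, b1, a2, b2⟩ hg⟩
    | false =>
      obtain ⟨T', a1, a2⟩ := exists_heap (path x T) (key2 σ (path x T)) _ T le_rfl
      have ek := keys_eq_of_frontier a1
      obtain ⟨g, hg⟩ := exists_greedy2 false σ T' (ek ▸ hs) fun y hy => ek ▸ hx y (by simp [hy])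
      exact ⟨_, .munro ⟨a1, a2⟩ hg⟩

end Pool.Agent.Lib.GR7
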