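import Pool.Agent.Lib.GR7.Mir
import Pool.Agent.Lib.GR7.PG4
import Pool.Agent.Lib.TV.HIER

set_option autoImplicit false
set_option linter.unusedVariables false

/-! The number of touches in the greedy game is linear. -/

namespace Pool.Agent.Lib.GR7

open Pool.Agent.Lib.MP_3ecc11_lc Pool.Agent.Lib.TV19 Finset

namespace Game

variable {G : Game} {d : ℤ → ℤ → ℕ} {z : ℤ → ℤ}

theorem AA_le (G : Game) : ∑ τ ∈ Ioo 0 G.N, (G.A τ).card ≤ (G.S G.TT).card := by
  classical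
  unfold S
  rw [card_filter, sum_product]
  refine sum_le_sum fun τ _ => le_trans card_image_le (le_of_eq ?_)
  unfold U
  rw [card_filter]
  exact sum_congr rfl fun v _ => by congr

theorem card_NL (G : Game) : (G.S G.NL).card ≤ 4 * (Ioo 0 G.N).card := by
  classical
  rw [mul_comm, ← card_range 4, ← card_product]
  refine card_le_card_of_injOn (fun x => (x.1, if x.2 < x.1 then
    (if G.lo x ≤ G.a x.1 then 0 else 1) else (if G.lo x ≤ x.1 then 2 else 3)))
    (fun x hx => ?_) fun x hx y hy e => ?_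
  · refine mem_coe.2 (mem_product.2 ⟨mem_Ioo.2 (mem_S.1 (mem_coe.1 hx)).1.1, mem_range.2 ?_⟩)
    simp only
    split_ifs <;> omega
  · obtain ⟨-, k, tx, nx⟩ := mem_S.1 (mem_coe.1 hx)
    obtain ⟨-, k', ty, ny⟩ := mem_S.1 (mem_coe.1 hy)
    obtain ⟨t, m⟩ := x
    obtain ⟨s, m'⟩ := y
    simp only [Prod.mk.injEq] at e
    obtain ⟨rfl, e⟩ := e
    have n1 : ¬ _ := fun c => nx ⟨k, tx, c⟩
    have n2 : ¬ _ := fun c => ny ⟨k, ty, c⟩
    obtain ⟨a1, a2, a3, a4⟩ := tx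
    obtain ⟨b1, b2, b3, b4⟩ := ty
    have p1 := G.p2 t m m' k.1 k.2 a1 b1 a2 b2 a3 a4 b3 b4
    have p2 := G.p2 t m' m k.1 k.2 b1 a1 b2 a2 b3 b4 a3 a4
    have q1 := G.q2 t m m' k.1 k.2 a1 b1 a2 b2 a3 a4 b3 b4
    have q2 := G.q2 t m' m k.1 k.2 b1 a1 b2 a2 b3 b4 a3 a4
    unfold An Anc lo hi at *
    simp only [Prod.mk.injEq, true_and] at *
    split_ifs at e <;> omega

theorem card_DEG (G : Game) :
    (G.S fun x => G.IsLink x ∧ G.w x = x.2).card ≤ (Ioo 0 G.N).card := by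
  refine card_le_card_of_injOn (fun x => x.2) (fun x hx => ?_) fun x hx y hy e => ?_
  · exact mem_coe.2 (mem_Ioo.2 (mem_S.1 (mem_coe.1 hx)).1.2)
  · obtain ⟨-, lx, wx⟩ := mem_S.1 (mem_coe.1 hx)
    obtain ⟨-, ly, wy⟩ := mem_S.1 (mem_coe.1 hy)
    simp only at e
    refine Prod.ext ?_ e
    by_contra ne
    have bx := lx.basic
    have b' := ly.basic
    have tx := lx.2.1
    have ty := ly.2.1
    rcases lx.1.total ly.1 tx.1 (e ▸ ty.1) with o | o
    · exact lx.noaff o (Ne.symm ne) (by rw [wx, e]; exact ty.1) (by rw [wx, e]; exact ty.2.1.symm)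
        bx.1 bx.2.1 (e ▸ ty)
    · exact ly.noaff o ne (by rw [wy, ← e]; exact tx.1) (by rw [wy, ← e]; exact tx.2.1.symm)
        b'.1 b'.2.1 (e ▸ tx)

theorem d_ne (H : TV.Hier 0 G.N G.a G.b d z) {t w e : ℤ} (kt : G.Key t) (h1 : G.An t w)
    (ne : w ≠ t) (h2 : G.An w e) : d t w ≠ d w e := by
  intro c
  have kw := kt.of h1
  have ke := kw.of h2
  have k1 := d3 H kt h1 h2
  have k2 := sy H kt kw
  have k3 := (H.d0 _ _ kw.1 kw.2 kt.1 kt.2).1
  have k4 := H.d2 _ _ _ kw.1 kw.2 kt.1 kt.2 ke.1 ke.2 (by omega) (by omega)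
  omega

theorem TT_le (H : TV.Hier 0 G.N G.a G.b d z) : (G.S G.TT).card ≤ (G.S G.NL).card +
    (G.S fun x => G.IsLink x ∧ G.w x = x.2).card + (G.S (G.PL d)).card + (G.S (G.PR d)).card +
    (G.S (G.FL d)).card + (G.S (G.FR d)).card := by
  classical
  have hs : G.S G.TT ⊆ G.S G.NL ∪ (G.S fun x => G.IsLink x ∧ G.w x = x.2) ∪ G.S (G.PL d) ∪
      G.S (G.PR d) ∪ G.S (G.FL d) ∪ G.S (G.FR d) := by
    intro x hx
    simp only [mem_union, mem_S] at hx ⊢
    obtain ⟨k, t⟩ := hx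
    by_cases l : G.IsLink x
    · have a := l.anc
      have n1 := d_ne H l.1 a.1 a.2.1 a.2.2.1
      have n2 := d_ne H l.1 a.1 a.2.1 a.2.2.2.1
      simp only [PL, PR, FL, FR, Left, Right, NL, k, l, true_and, not_true, and_false, false_or]
      omega
    · simp only [NL, k, l]
      exact Or.inl (Or.inl (Or.inl (Or.inl (Or.inl ⟨by simp, trivial, t, by simp⟩))))
  refine le_trans (card_le_card hs) ?_
  repeat refine le_trans (card_union_le _ _) (Nat.add_le_add_right ?_ _)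
  exact le_rfl

theorem total : ∃ C : ℕ, ∀ G : Game, (G.S G.TT).card ≤ C * G.N.toNat := by
  obtain ⟨C, hC⟩ := card_PL PA_all 24
  refine ⟨C + 52 + 16 * (1280 * 320 ^ 2 + 102400 * 320), fun G => ?_⟩
  obtain ⟨d, z, H⟩ := TV.HIER_holds G.N G.a G.b G.T
  have H' : TV.Hier 0 G.mir.N G.mir.a G.mir.b (G.md d) (nf G.N z) := hier_nf G.T H
  have a1 := hC G d z H
  have a2 := hC _ _ _ H'
  have a3 := card_FL H 320
  have a4 := card_FL H' 320
  have a5 := AA_le G
  have a6 := AA_le G.mir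
  have a7 := card_NL G
  have a8 := card_DEG G
  have a9 := TT_le H
  rw [PL_mir] at a2
  rw [FL_mir, PL_mir, PR_mir, NL_mir] at a4
  rw [TT_mir] at a6
  change _ ≤ C * (Ioo 0 G.N).card + _ at a2
  change _ ≤ 2 * (_ * G.N.toNat) + _ + _ at a4
  have n : (Ioo 0 G.N).card ≤ G.N.toNat := by
    rw [Int.card_Ioo]
    omega
  have m := Nat.mul_le_mul_left C n
  rw [add_mul, add_mul, mul_assoc]
  omega

end Game

end Pool.Agent.Lib.GR7
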