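import Pool.Agent.Lib.GR7.Total
import Pool.Agent.Lib.TVH.Ex

set_option autoImplicit false
set_option linter.unusedVariables false

/-! The interval model of the greedy algorithm and its cost on preorder sequences. -/

namespace Pool.Agent.Lib.GR7

open Pool.Agent.Lib.MP_3ecc11_lc Pool.Agent.Lib.TV19 Finset BT

theorem ex_pre (Z : ℤ → Prop) (v : ℤ) : ∃ c, 0 < v →
    0 ≤ c ∧ c < v ∧ (0 < c → Z c) ∧ ∀ w, 0 < w → w < v → Z w → w ≤ c := by
  classical
  by_cases h : ((Ioo 0 v).filter Z).Nonempty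
  · obtain ⟨c, hc, m⟩ := exists_max_image _ id h
    rw [mem_filter, mem_Ioo] at hc
    exact ⟨c, fun _ => ⟨hc.1.1.le, hc.1.2, fun _ => hc.2, fun w w1 w2 w3 =>
      m w (mem_filter.2 ⟨mem_Ioo.2 ⟨w1, w2⟩, w3⟩)⟩⟩
  · exact ⟨0, fun hv => ⟨le_rfl, hv, fun k => absurd k (lt_irrefl _), fun w w1 w2 w3 =>
      absurd ⟨w, mem_filter.2 ⟨mem_Ioo.2 ⟨w1, w2⟩, w3⟩⟩ h⟩⟩

theorem ex_suc (N : ℤ) (Z : ℤ → Prop) (v : ℤ) : ∃ c, v < N →
    c ≤ N ∧ v < c ∧ (c < N → Z c) ∧ ∀ w, w < N → v < w → Z w → c ≤ w := by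
  classical
  by_cases h : ((Ioo v N).filter Z).Nonempty
  · obtain ⟨c, hc, m⟩ := exists_min_image _ id h
    rw [mem_filter, mem_Ioo] at hc
    exact ⟨c, fun _ => ⟨hc.1.2.le, hc.1.1, fun _ => hc.2, fun w w1 w2 w3 =>
      m w (mem_filter.2 ⟨mem_Ioo.2 ⟨w2, w1⟩, w3⟩)⟩⟩
  · exact ⟨N, fun hv => ⟨le_rfl, hv, fun k => absurd k (lt_irrefl _), fun w w1 w2 w3 =>
      absurd ⟨w, mem_filter.2 ⟨mem_Ioo.2 ⟨w2, w1⟩, w3⟩⟩ h⟩⟩

/-- a state: an interval around each key -/
structure St where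
  p : ℤ → ℤ
  q : ℤ → ℤ

namespace St

/-- `v` is touched by the request `x` -/
def Z (s : St) (x v : ℤ) : Prop := s.p v < x ∧ x < s.q v

noncomputable def pre (s : St) (x v : ℤ) : ℤ := Classical.choose (ex_pre (s.Z x) v)
noncomputable def suc (N : ℤ) (s : St) (x v : ℤ) : ℤ := Classical.choose (ex_suc N (s.Z x) v)

theorem pre_spec (s : St) (x : ℤ) {v : ℤ} (h : 0 < v) : 0 ≤ s.pre x v ∧ s.pre x v < v ∧
    (0 < s.pre x v → s.Z x (s.pre x v)) ∧ ∀ w, 0 < w → w < v → s.Z x w → w ≤ s.pre x v :=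
  Classical.choose_spec (ex_pre (s.Z x) v) h

theorem suc_spec {N : ℤ} (s : St) (x : ℤ) {v : ℤ} (h : v < N) : s.suc N x v ≤ N ∧ v < s.suc N x v ∧
    (s.suc N x v < N → s.Z x (s.suc N x v)) ∧ ∀ w, w < N → v < w → s.Z x w → s.suc N x v ≤ w :=
  Classical.choose_spec (ex_suc N (s.Z x) v) h

open Classical in
/-- the state after the request `x` -/
noncomputable def upd (b : Bool) (N : ℤ) (s : St) (x : ℤ) : St where
  p v := if b = true ∧ v = x then 0 else if s.Z x v then s.pre x v else s.p v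
  q v := if b = true ∧ v = x then N else if s.Z x v then s.suc N x v else s.q v

/-- laminarity -/
structure Lm (N : ℤ) (s : St) : Prop where
  pl : ∀ v, 0 < v → v < N → 0 ≤ s.p v ∧ s.p v < v ∧ v < s.q v ∧ s.q v ≤ N
  l1 : ∀ v w, 0 < v → v < N → s.p v < w → w < v → s.p v ≤ s.p w ∧ s.q w ≤ v
  l2 : ∀ v w, 0 < v → v < N → v < w → w < s.q v → v ≤ s.p w ∧ s.q w ≤ s.q v

variable {b : Bool} {N x v : ℤ} {s : St}

theorem upd_un (ne : v ≠ x) (h : ¬ s.Z x v) :
    (s.upd b N x).p v = s.p v ∧ (s.upd b N x).q v = s.q v := by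
  simp [upd, ne, h]

theorem upd_t (ne : ¬ (b = true ∧ v = x)) (h : s.Z x v) :
    (s.upd b N x).p v = s.pre x v ∧ (s.upd b N x).q v = s.suc N x v := by
  simp only [upd, if_neg ne, if_pos h, and_self]

theorem upd_x : (s.upd true N x).p x = 0 ∧ (s.upd true N x).q x = N := by
  simp [upd]

theorem Lm.zx (h : Lm N s) (x1 : 0 < x) (x2 : x < N) : s.Z x x := by
  have := h.pl x x1 x2
  exact ⟨this.2.1, this.2.2.1⟩

theorem Lm.cases (h : Lm N s) (x1 : 0 < x) (x2 : x < N) (b : Bool) (v : ℤ) :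
    (v = x ∧ (s.upd b N x).p v = 0 ∧ (s.upd b N x).q v = N) ∨
    (s.Z x v ∧ (s.upd b N x).p v = s.pre x v ∧ (s.upd b N x).q v = s.suc N x v) ∨
    (v ≠ x ∧ ¬ s.Z x v ∧ (s.upd b N x).p v = s.p v ∧ (s.upd b N x).q v = s.q v) := by
  by_cases c : b = true ∧ v = x
  · obtain ⟨rfl, rfl⟩ := c
    exact Or.inl ⟨rfl, upd_x⟩
  · by_cases z : s.Z x v
    · exact Or.inr (Or.inl ⟨z, upd_t c z⟩)
    · have ne : v ≠ x := fun e => z (by rw [e]; exact h.zx x1 x2)
      exact Or.inr (Or.inr ⟨ne, z, upd_un ne z⟩)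

theorem Lm.upd (h : Lm N s) (x1 : 0 < x) (x2 : x < N) (b : Bool) : Lm N (s.upd b N x) := by
  have zx := h.zx x1 x2
  have pl : ∀ v, 0 < v → v < N → 0 ≤ (s.upd b N x).p v ∧ (s.upd b N x).p v < v ∧
      v < (s.upd b N x).q v ∧ (s.upd b N x).q v ≤ N := fun v v1 v2 => by
    have := h.pl v v1 v2
    have := s.pre_spec x v1
    have := s.suc_spec x v2
    have := h.cases x1 x2 b v
    omega
  refine ⟨pl, fun v w v1 v2 w1 w2 => ?_, fun v w v1 v2 w1 w2 => ?_⟩
  · have a0 := pl v v1 v2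
    have a1 := pl w (by omega) (by omega)
    have a2 := h.pl v v1 v2
    have a3 := h.pl w (by omega) (by omega)
    obtain ⟨b1, b2, b3, b4⟩ := s.pre_spec x v1
    obtain ⟨c1, c2, c3, c4⟩ := s.suc_spec (N := N) x (v := w) (by omega)
    have d1 := b4 w (by omega) w2
    have d2 := c4 x x2
    have d3 := h.l1 v w v1 v2
    have d4 := h.l2 w v (by omega) (by omega) w2
    have d5 := h.l1 w (s.pre x v) (by omega) (by omega)
    have e1 := h.cases x1 x2 b v
    have e2 := h.cases x1 x2 b w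
    unfold Z at *
    omega
  · have a0 := pl v v1 v2
    have a1 := pl w (by omega) (by omega)
    have a2 := h.pl v v1 v2
    have a3 := h.pl w (by omega) (by omega)
    obtain ⟨b1, b2, b3, b4⟩ := s.suc_spec (N := N) x v2
    obtain ⟨c1, c2, c3, c4⟩ := s.pre_spec x (v := w) (by omega)
    have d1 := b4 w (by omega) w1
    have d2 := c4 x x1
    have d3 := h.l2 v w v1 v2
    have d4 := h.l1 w v (by omega) (by omega)
    have d5 := h.l2 w (s.suc N x v) (by omega) (by omega)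
    have e1 := h.cases x1 x2 b v
    have e2 := h.cases x1 x2 b w
    unfold Z at *
    omega

theorem Lm.after (h : Lm N s) (x1 : 0 < x) (x2 : x < N) (b : Bool) (v1 : x < v) (v2 : v < N) :
    x ≤ (s.upd b N x).p v := by
  have zx := h.zx x1 x2
  have := h.pl v (by omega) v2
  have := (s.pre_spec x (v := v) (by omega)).2.2.2 x x1 v1 zx
  have := h.cases x1 x2 b v
  unfold Z at *
  omega

open Classical in
/-- the touched keys -/
noncomputable def ZS (N : ℤ) (s : St) (x : ℤ) : Finset ℤ := (Ioo 0 N).filter (s.Z x)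

/-- the state after a sequence of requests -/
noncomputable def run (b : Bool) (N : ℤ) : St → List ℤ → St
  | s, [] => s
  | s, x :: σ => run b N (s.upd b N x) σ

/-- the number of touches -/
noncomputable def vc (b : Bool) (N : ℤ) : St → List ℤ → ℕ
  | _, [] => 0
  | s, x :: σ => (s.ZS N x).card + vc b N (s.upd b N x) σ

theorem run_append (σ τ : List ℤ) : ∀ s : St, run b N s (σ ++ τ) = run b N (run b N s σ) τ := by
  induction σ with
  | nil => exact fun _ => rfl
  | cons x σ ih => exact fun s => ih _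

theorem vc_append (σ τ : List ℤ) : ∀ s : St,
    vc b N s (σ ++ τ) = vc b N s σ + vc b N (run b N s σ) τ := by
  induction σ with
  | nil => exact fun _ => (zero_add _).symm
  | cons x σ ih =>
    intro s
    simp only [List.cons_append, vc, run, ih, add_assoc]

/-- the keys whose interval reaches beyond `lo` -/
noncomputable def Ps (N : ℤ) (s : St) (lo : ℤ) : ℕ := ((Ioo 0 N).filter fun v => lo < s.q v).card

theorem Ps_mono {lo hi : ℤ} (h : lo ≤ hi) : Ps N s hi ≤ Ps N s lo :=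
  card_le_card fun v hv => by
    rw [mem_filter] at hv ⊢
    exact ⟨hv.1, by omega⟩

/-- touched keys in the range of the request -/
noncomputable def uc (N lo hi x : ℤ) (s : St) : ℕ :=
  ((Ioo 0 N).filter fun v => (lo < v ∧ v < hi) ∧ v ≠ x ∧ s.p v < x ∧ x < s.q v).card

theorem Lm.cost (h : Lm N s) {lo hi : ℤ} (l0 : 0 ≤ lo) (x1 : lo < x) (x2 : x < hi) (hN : hi ≤ N)
    (inv : ∀ v, hi < v → v < N → hi ≤ s.p v) (b : Bool) :
    (s.ZS N x).card + Ps N (s.upd b N x) lo ≤ uc N lo hi x s + 3 + Ps N s lo := by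
  classical
  have x0 : 0 < x := by omega
  have xN : x < N := by omega
  set D := (Ioo 0 N).filter fun v => v ≤ lo ∧ s.Z x v with hD
  set B := (Ioo 0 N).filter fun v => lo < (s.upd b N x).q v with hB
  have a1 : (s.ZS N x).card ≤ D.card + uc N lo hi x s + 2 := by
    refine le_trans (card_le_card (t := D ∪ ((Ioo 0 N).filter fun v =>
      (lo < v ∧ v < hi) ∧ v ≠ x ∧ s.p v < x ∧ x < s.q v) ∪ {x, hi}) fun v hv => ?_)
      (le_trans (card_union_le _ _) (Nat.add_le_add (card_union_le _ _) card_le_two))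
    simp only [ZS, hD, mem_union, mem_filter, mem_Ioo, mem_insert, mem_singleton, Z] at hv ⊢
    have := inv v
    omega
  have a2 : (B ∪ D).card ≤ Ps N s lo := card_le_card fun v hv => by
    simp only [hB, hD, mem_union, mem_filter, mem_Ioo] at hv ⊢
    have k := h.cases x0 xN b v
    have := h.pl x x0 xN
    unfold Z at *
    rcases k with ⟨rfl, -⟩ | k | k <;> omega
  have a3 : (B ∩ D).card ≤ 1 := card_le_one.2 fun u hu v hv => by
    simp only [hB, hD, mem_inter, mem_filter, mem_Ioo] at hu hv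
    have k1 := (s.suc_spec (N := N) x hu.1.1.2).2.2.2 v hv.1.1.2
    have k2 := (s.suc_spec (N := N) x hv.1.1.2).2.2.2 u hu.1.1.2
    have k3 := upd_t (b := b) (N := N) (by omega) hu.2.2.2
    have k4 := upd_t (b := b) (N := N) (by omega) hv.2.2.2
    have k5 := hu.2.2.2
    have k6 := hv.2.2.2
    by_contra ne
    rcases lt_or_gt_of_ne ne with o | o
    · have := k1 o k6
      omega
    · have := k2 o k5
      omega
  have a4 := card_union_add_card_inter B D
  have a5 : Ps N (s.upd b N x) lo = B.card := rfl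
  omega

end St

end Pool.Agent.Lib.GR7
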